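import Pool.Agent.W385.TT.Modes
import Pool.Agent.W353.TP.Inum
import Pool.Agent.W353.TP.Deg

/-! Abstract stabilisation: one finite extension governs every functional on the twists over all
extensions of bounded degree which satisfies the Bessel inequality. -/

set_option autoImplicit false

namespace Pool.Agent.W385.TT

open Filter Topology NumberField IsDedekindDomain
open Pool.Agent.W353.TP

section
variable {K F F' : Type} [Field K] [NumberField K] [Field F] [NumberField F] [Algebra K F]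
  [Field F'] [NumberField F'] [Algebra K F']

/-- symmetry of the intertwining numbers -/
theorem inum_symm' {D : 𝓞 F} {D' : 𝓞 F'} (hD : D ≠ 0) (hD' : D' ≠ 0) :
    inum K F F' (D : F) (D' : F') = inum K F' F (D' : F') (D : F) := by
  have h1 := gramN (K := K) hD hD'
  have h2 := gramN (K := K) hD' hD
  have h3 : (fun p : Nat.Primes => ∑ u : 𝓞 K →+* ZMod (p : ℕ),
      push K (qh D) ⟨p, u⟩ * push K (qh D') ⟨p, u⟩) =
      fun p : Nat.Primes => ∑ u : 𝓞 K →+* ZMod (p : ℕ),
        push K (qh D') ⟨p, u⟩ * push K (qh D) ⟨p, u⟩ := by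
    funext p
    exact Finset.sum_congr rfl fun u _ => mul_comm _ _
  rw [h3] at h1
  exact_mod_cast tendsto_nhds_unique h1 h2

end

section
variable {K : Type} [Field K] [NumberField K] {I J : Type}

/-- twists over an extension -/
structure Dat (K : Type) [Field K] [NumberField K] (I : Type) where
  F : IntermediateField K (Om K)
  nf : NumberField F
  d : I → 𝓞 F
  hd : ∀ i, d i ≠ 0

instance Dat.instNF (x : Dat K I) : NumberField x.F := x.nf

/-- the products of the twists -/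
noncomputable def Dat.D (A : J → Finset I) (x : Dat K I) (j : J) : 𝓞 x.F := ∏ i ∈ A j, x.d i

theorem Dat.D_ne (A : J → Finset I) (x : Dat K I) (j : J) : x.D A j ≠ 0 :=
  Finset.prod_ne_zero_iff.2 fun i _ => x.hd i

variable (A : J → Finset I) (P : Finset J) (b : J → ℝ)

/-- the entries of the Gram matrix -/
noncomputable def GD (x y : Dat K I) : ℝ := Gn K P b x.F y.F (x.D A) (y.D A)

theorem GD_symm (x y : Dat K I) : GD A P b x y = GD A P b y x := by
  unfold GD Gn
  refine Finset.sum_congr rfl fun j _ => ?_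
  rw [inum_symm' (x.D_ne A j) (y.D_ne A j)]

/-- combinations of two functionals -/
structure Cb (ι : Type) where
  a : Bool → ι
  s : Bool → ℤ

variable {ι : Type} (dat : ι → Dat K I) (ρ : ι → ℝ)

/-- the value of a combination -/
noncomputable def Cb.val (x : Cb ι) : ℝ := ∑ b : Bool, (x.s b : ℝ) * ρ (x.a b)

/-- the inner product of two combinations -/
noncomputable def Cb.ip (x y : Cb ι) : ℝ :=
  ∑ β : Bool, ∑ γ : Bool, (x.s β : ℝ) * (y.s γ : ℝ) * GD A P b (dat (x.a β)) (dat (y.a γ))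

theorem Cb.ip_symm (x y : Cb ι) : x.ip A P b dat y = y.ip A P b dat x := by
  unfold Cb.ip
  rw [Finset.sum_comm]
  refine Finset.sum_congr rfl fun c _ => Finset.sum_congr rfl fun b _ => ?_
  rw [GD_symm]
  ring

/-- Bessel's inequality -/
def Bes (N : ℝ) : Prop := ∀ (κ : Type) (S : Finset κ) (g : κ → ι) (a : κ → ℝ),
  (∑ k ∈ S, a k * ρ (g k)) ^ 2 ≤
    N * (∑ k ∈ S, ∑ l ∈ S, a k * a l * GD A P b (dat (g k)) (dat (g l)))

variable {A P b dat ρ}

theorem cb_ineq {N : ℝ} (hB : Bes A P b dat ρ N) (T : Finset (Cb ι)) (a : Cb ι → ℝ) :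
    (∑ x ∈ T, a x * x.val ρ) ^ 2 ≤ N * ∑ x ∈ T, ∑ y ∈ T, a x * a y * x.ip A P b dat y := by
  have h1 := hB (Cb ι × Bool) (T ×ˢ (Finset.univ : Finset Bool)) (fun k => k.1.a k.2)
    (fun k => a k.1 * k.1.s k.2)
  have e1 : ∑ k ∈ T ×ˢ (Finset.univ : Finset Bool), (a k.1 * k.1.s k.2) * ρ (k.1.a k.2) =
      ∑ x ∈ T, a x * x.val ρ := by
    rw [Finset.sum_product]
    refine Finset.sum_congr rfl fun x _ => ?_
    unfold Cb.val
    rw [Finset.mul_sum]
    refine Finset.sum_congr rfl fun b _ => ?_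
    rw [mul_assoc]
  have e2 : ∑ k ∈ T ×ˢ (Finset.univ : Finset Bool), ∑ l ∈ T ×ˢ (Finset.univ : Finset Bool),
      (a k.1 * k.1.s k.2) * (a l.1 * l.1.s l.2) * GD A P b (dat (k.1.a k.2)) (dat (l.1.a l.2)) =
      ∑ x ∈ T, ∑ y ∈ T, a x * a y * x.ip A P b dat y := by
    rw [Finset.sum_product]
    refine Finset.sum_congr rfl fun x _ => ?_
    have e3 : ∀ β : Bool, ∑ l ∈ T ×ˢ (Finset.univ : Finset Bool),
        (a x * x.s β) * (a l.1 * l.1.s l.2) * GD A P b (dat (x.a β)) (dat (l.1.a l.2)) =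
        ∑ y ∈ T, ∑ γ : Bool, (a x * x.s β) * (a y * y.s γ) *
          GD A P b (dat (x.a β)) (dat (y.a γ)) := by
      intro β
      rw [Finset.sum_product]
    rw [Finset.sum_congr rfl fun b _ => e3 b, Finset.sum_comm]
    refine Finset.sum_congr rfl fun y _ => ?_
    unfold Cb.ip
    rw [Finset.mul_sum]
    refine Finset.sum_congr rfl fun b _ => ?_
    rw [Finset.mul_sum]
    refine Finset.sum_congr rfl fun c _ => ?_
    ring
  rw [← e1, ← e2]
  exact h1

variable (A P b dat ρ) in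
/-- exceptional combinations -/
def Exc (Q : Cb ι → Prop) (n k N : ℕ) (x : Cb ι) : Prop :=
  1 ≤ k * |x.val ρ| ∧ x.ip A P b dat x ≤ n * N ∧ Q x

theorem exc_card {N : ℕ} (hB : Bes A P b dat ρ N) (Q : Cb ι → Prop) (n k : ℕ)
    (T : Finset (Cb ι)) (hT : ∀ x ∈ T, Exc A P b dat ρ Q n k N x)
    (horth : ∀ x ∈ T, ∀ y ∈ T, x ≠ y → x.ip A P b dat y = 0) : T.card ≤ n * (k * N) ^ 2 := by
  classical
  have h1 := orth_bound T (fun x => x.val ρ) (Cb.ip A P b dat) N n
    (Nat.cast_nonneg N) (Nat.cast_nonneg n)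
    (fun c => cb_ineq hB T c)
    (fun x hx => (hT x hx).2.1) horth
  have h2 : (T.card : ℝ) ≤ k ^ 2 * ∑ x ∈ T, (x.val ρ) ^ 2 := by
    rw [Finset.card_eq_sum_ones, Finset.mul_sum]
    push_cast
    refine Finset.sum_le_sum fun x hx => ?_
    have h4 := (hT x hx).1
    have h5 : (k : ℝ) ^ 2 * (x.val ρ) ^ 2 = (k * |x.val ρ|) ^ 2 := by
      rw [mul_pow, sq_abs]
    rw [h5]
    exact one_le_pow₀ h4
  have h3 : (T.card : ℝ) ≤ k ^ 2 * (n * N ^ 2) :=
    h2.trans (mul_le_mul_of_nonneg_left h1 (by positivity))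
  have h4 : ((n * (k * N) ^ 2 : ℕ) : ℝ) = k ^ 2 * (n * N ^ 2) := by
    push_cast
    ring
  rw [← h4] at h3
  exact_mod_cast h3

/-- a maximal orthogonal family of exceptional combinations -/
theorem exists_max {N : ℕ} (hB : Bes A P b dat ρ N) (Q : Cb ι → Prop) (n k : ℕ) :
    ∃ T : Finset (Cb ι), T.card ≤ n * (k * N) ^ 2 ∧ (∀ x ∈ T, Q x) ∧
      ∀ y : Cb ι, Exc A P b dat ρ Q n k N y →
        ¬ ∀ x ∈ T, x.ip A P b dat y = 0 ∧ y.ip A P b dat x = 0 := by
  classical
  by_contra hcon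
  push Not at hcon
  have key : ∀ l : ℕ, ∃ T : Finset (Cb ι), T.card = l ∧
      (∀ x ∈ T, Exc A P b dat ρ Q n k N x) ∧
      ∀ x ∈ T, ∀ y ∈ T, x ≠ y → x.ip A P b dat y = 0 := by
    intro l
    induction l with
    | zero => exact ⟨∅, rfl, by simp, by simp⟩
    | succ l ih =>
      obtain ⟨T, hc, hT, ho⟩ := ih
      obtain ⟨B, hB', hBo⟩ := hcon T (exc_card hB Q n k T hT ho) (fun x hx => (hT x hx).2.2)
      have hBT : B ∉ T := by
        intro hBT
        have h1 := cb_ineq hB {B} (fun _ => 1)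
        simp only [Finset.sum_singleton, one_mul] at h1
        rw [(hBo B hBT).1, mul_zero] at h1
        have h2 := pow_eq_zero_iff (two_ne_zero) |>.1 (le_antisymm h1 (sq_nonneg _))
        have h3 := hB'.1
        rw [h2, abs_zero, mul_zero] at h3
        linarith
      refine ⟨insert B T, ?_, ?_, ?_⟩
      · rw [Finset.card_insert_of_notMem hBT, hc]
      · intro x hx
        rcases Finset.mem_insert.1 hx with rfl | hx
        · exact hB'
        · exact hT x hx
      · intro x hx y hy hne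
        rcases Finset.mem_insert.1 hx with h1 | h1
        · rcases Finset.mem_insert.1 hy with h2 | h2
          · exact absurd (h1.trans h2.symm) hne
          · rw [h1]
            exact (hBo y h2).2
        · rcases Finset.mem_insert.1 hy with h2 | h2
          · rw [h2]
            exact (hBo x h1).1
          · exact ho x h1 y h2 hne
  obtain ⟨T, hc, hT, ho⟩ := key (n * (k * N) ^ 2 + 1)
  have := exc_card hB Q n k T hT ho
  omega

/-- everything is defined over `M` -/
def InM (M : IntermediateField K (Om K)) (x : Dat K I) : Prop :=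
  x.F ≤ M ∧ ∀ i, ∃ s ∈ M, s ^ 2 = ((x.d i : x.F) : Om K)

/-- the product of the twists, as an element of the algebraic closure -/
noncomputable def Dat.pr (A : J → Finset I) (x : Dat K I) (j : J) : Om K :=
  ((x.D A j : x.F) : Om K)

theorem Dat.pr_eq (A : J → Finset I) (x : Dat K I) (j : J) :
    x.pr A j = ∏ i ∈ A j, ((x.d i : x.F) : Om K) := by
  exact map_prod ((algebraMap x.F (Om K)).comp (algebraMap (𝓞 x.F) x.F)) x.d (A j)

theorem InM.sq {M : IntermediateField K (Om K)} {x : Dat K I} (h : InM M x) (A : J → Finset I)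
    (j : J) : ∃ s ∈ M, s ^ 2 = x.pr A j := by
  choose s hs1 hs2 using h.2
  refine ⟨∏ i ∈ A j, s i, prod_mem fun i _ => hs1 i, ?_⟩
  rw [Dat.pr_eq, ← Finset.prod_pow]
  exact Finset.prod_congr rfl fun i _ => hs2 i

/-- the field of definition of a finite family -/
theorem exists_field [Fintype I] (T : Finset (Cb ι)) (dat : ι → Dat K I) (n : ℕ) :
    ∃ M : IntermediateField K (Om K),
    FiniteDimensional K M ∧ Normal K M ∧ (∀ x ∈ T, ∀ β, InM M (dat (x.a β))) ∧
    ((∀ x ∈ T, (dat (x.a true)).F ≤ (dat (x.a false)).F ∧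
      Module.finrank K (dat (x.a false)).F ≤ n) →
      Module.finrank K M ≤ (4 ^ (Fintype.card I) * n).factorial ^ T.card) := by
  classical
  have hsq : ∀ x : Om K, ∃ s : Om K, s ^ 2 = x := fun x => by
    obtain ⟨s, hs⟩ := IsAlgClosed.exists_pow_nat_eq x (by norm_num : 0 < 2)
    exact ⟨s, hs⟩
  choose sq hsq using hsq
  let tt' : Cb ι → Bool × I → Om K := fun x p =>
    sq (((dat (x.a p.1)).d p.2 : (dat (x.a p.1)).F) : Om K)
  let W : Cb ι → IntermediateField K (Om K) := fun x =>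
    (dat (x.a false)).F ⊔ (dat (x.a true)).F ⊔
    IntermediateField.adjoin K (tt' x '' (Finset.univ : Finset (Bool × I)))
  have hfin1 : ∀ x : Cb ι, FiniteDimensional K (IntermediateField.adjoin K
      (tt' x '' (Finset.univ : Finset (Bool × I))) : IntermediateField K (Om K)) := by
    intro x
    have : Finite (tt' x '' (Finset.univ : Finset (Bool × I)) : Set (Om K)) :=
      Set.Finite.to_subtype (Set.Finite.image _ (Finset.finite_toSet _))
    refine IntermediateField.finiteDimensional_adjoin fun y _ => ?_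
    exact Algebra.IsIntegral.isIntegral y
  have hfin2 : ∀ (x : Cb ι) β, FiniteDimensional K (dat (x.a β)).F := fun x β => inferInstance
  have hfin : ∀ x, FiniteDimensional K (W x) := fun x =>
    have : FiniteDimensional K ((dat (x.a false)).F ⊔ (dat (x.a true)).F :
      IntermediateField K (Om K)) := IntermediateField.finiteDimensional_sup _ _
    IntermediateField.finiteDimensional_sup _ _
  obtain ⟨M, hM1, hM2, hM3, hM4⟩ := exists_normal W hfin T
  refine ⟨M, hM1, hM2, ?_, ?_⟩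
  · intro x hx β
    have h1 : W x ≤ M := hM3 x hx
    have h2 : (dat (x.a false)).F ⊔ (dat (x.a true)).F ≤ M := le_sup_left.trans h1
    refine ⟨?_, fun i => ⟨sq (((dat (x.a β)).d i : (dat (x.a β)).F) : Om K), ?_, hsq _⟩⟩
    · cases β
      · exact le_sup_left.trans h2
      · exact le_sup_right.trans h2
    · have h3 : IntermediateField.adjoin K
          (tt' x '' (Finset.univ : Finset (Bool × I))) ≤ M := le_sup_right.trans h1
      exact h3 (IntermediateField.subset_adjoin K _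
        ⟨(β, i), Finset.mem_coe.2 (Finset.mem_univ _), rfl⟩)
  · intro hQ
    refine hM4 _ fun x hx => ?_
    obtain ⟨h1, h2⟩ := hQ x hx
    have h3 : W x = (dat (x.a false)).F ⊔ IntermediateField.adjoin K
        (tt' x '' (Finset.univ : Finset (Bool × I))) := by
      change (dat (x.a false)).F ⊔ (dat (x.a true)).F ⊔ _ = _
      rw [sup_eq_left.2 h1]
    rw [h3]
    refine (sqrt_adj (dat (x.a false)).F (tt' x) ?_ Finset.univ).trans ?_
    · rintro ⟨β, i⟩
      change sq _ ^ 2 ∈ (dat (x.a false)).F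
      rw [hsq]
      cases β
      · exact ((dat (x.a false)).d i : (dat (x.a false)).F).2
      · exact h1 ((dat (x.a true)).d i : (dat (x.a true)).F).2
    · rw [Finset.card_univ, Fintype.card_prod, Fintype.card_bool, pow_mul]
      exact Nat.mul_le_mul_left _ h2

variable (A P) in
/-- bounded intertwining numbers -/
def Bd (n : ℕ) (x : Dat K I) : Prop :=
  ∀ j ∈ P, inum K x.F x.F (x.D A j : x.F) (x.D A j : x.F) ≤ n

theorem Bd_of_finrank {n : ℕ} {x : Dat K I} (h : Module.finrank K x.F ≤ n) : Bd A P n x :=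
  fun _ _ => (inum_le K x.F x.F _ _).trans h

variable (A P) in
/-- the relation between twists over `F` and twists over `F ∩ M` -/
def Rl (M : IntermediateField K (Om K)) (x y : Dat K I) : Prop :=
  ∀ j ∈ P, ((∃ u ∈ x.F, u ^ 2 = x.pr A j * y.pr A j) ∧ ∃ t ∈ M, t ^ 2 = y.pr A j) ∨
    ((∀ z ∈ x.F ⊔ M, z ^ 2 ≠ x.pr A j) ∧ ∀ z ∈ M, z ^ 2 ≠ y.pr A j)

theorem coe_ne {F : Type} [Field F] {a : 𝓞 F} (ha : a ≠ 0) : (a : F) ≠ 0 := by
  rw [Ne, RingOfIntegers.coe_eq_zero_iff]
  exact ha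

/-- new twists are orthogonal to `M` -/
theorem new_zero' (M : IntermediateField K (Om K)) [Normal K M] (x y : Dat K I) (j : J)
    (hx : InM M x) (h : ∀ z ∈ y.F ⊔ M, z ^ 2 ≠ y.pr A j) :
    inum K x.F y.F (x.D A j : x.F) (y.D A j : y.F) = 0 := by
  rw [inum_symm' (x.D_ne A j) (y.D_ne A j)]
  obtain ⟨s, hs1, hs2⟩ := hx.sq A j
  refine inum_eq_zero M y.F.val x.F.val ?_ (coe_ne (x.D_ne A j)) hs1 hs2 ?_
  · rw [IntermediateField.fieldRange_val]
    exact hx.1
  · rw [IntermediateField.fieldRange_val]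
    exact h

/-- old twists only depend on `F ∩ M` -/
theorem old_eq' (M : IntermediateField K (Om K)) [FiniteDimensional K M] [Normal K M]
    (x y y₀ : Dat K I) (j : J) (hF₀ : y₀.F = y.F ⊓ M) (hx : InM M x)
    (hu : ∃ u ∈ y.F, u ^ 2 = y.pr A j * y₀.pr A j) (ht : ∃ t ∈ M, t ^ 2 = y₀.pr A j) :
    inum K x.F y.F (x.D A j : x.F) (y.D A j : y.F) =
      inum K x.F y₀.F (x.D A j : x.F) (y₀.D A j : y₀.F) := by
  rw [inum_symm' (x.D_ne A j) (y.D_ne A j), inum_symm' (x.D_ne A j) (y₀.D_ne A j)]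
  obtain ⟨s, hs1, hs2⟩ := hx.sq A j
  obtain ⟨t, ht1, ht2⟩ := ht
  obtain ⟨u, hu1, hu2⟩ := hu
  exact inum_inf M y.F.val y₀.F.val (by rw [IntermediateField.fieldRange_val,
    IntermediateField.fieldRange_val, hF₀]) x.F.val
    (by rw [IntermediateField.fieldRange_val]; exact hx.1)
    (coe_ne (y.D_ne A j)) (coe_ne (y₀.D_ne A j)) hs1 hs2 ht1 ht2
    (by rw [IntermediateField.fieldRange_val]; exact hu1) hu2

/-- the combination of two members -/
def Cb.two (i i₀ : ι) (t : ℤ) : Cb ι where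
  a β := match β with
    | false => i
    | true => i₀
  s β := match β with
    | false => 1
    | true => t

theorem val_two (i i₀ : ι) (t : ℤ) : (Cb.two i i₀ t).val ρ = ρ i + t * ρ i₀ := by
  unfold Cb.val
  rw [Fintype.sum_bool]
  change (t : ℝ) * ρ i₀ + ((1 : ℤ) : ℝ) * ρ i = _
  push_cast
  ring

theorem ip_two_eq_zero' (x : Cb ι) (i i₀ : ι) (t : ℤ)
    (h : ∀ β, ∀ j ∈ P, (inum K (dat (x.a β)).F (dat i).F ((dat (x.a β)).D A j : (dat (x.a β)).F)
      ((dat i).D A j : (dat i).F) : ℤ) + t * inum K (dat (x.a β)).F (dat i₀).F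
        ((dat (x.a β)).D A j : (dat (x.a β)).F) ((dat i₀).D A j : (dat i₀).F) = 0) :
    x.ip A P b dat (Cb.two i i₀ t) = 0 := by
  unfold Cb.ip
  refine Finset.sum_eq_zero fun β _ => ?_
  rw [Fintype.sum_bool]
  change (x.s β : ℝ) * (t : ℝ) * GD A P b (dat (x.a β)) (dat i₀) +
    (x.s β : ℝ) * ((1 : ℤ) : ℝ) * GD A P b (dat (x.a β)) (dat i) = 0
  have h1 : GD A P b (dat (x.a β)) (dat i) + t * GD A P b (dat (x.a β)) (dat i₀) = 0 := by
    unfold GD Gn
    rw [Finset.mul_sum, ← Finset.sum_add_distrib]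
    refine Finset.sum_eq_zero fun j hj => ?_
    have h2 : (inum K (dat (x.a β)).F (dat i).F ((dat (x.a β)).D A j : (dat (x.a β)).F)
      ((dat i).D A j : (dat i).F) : ℝ) + t * inum K (dat (x.a β)).F (dat i₀).F
        ((dat (x.a β)).D A j : (dat (x.a β)).F) ((dat i₀).D A j : (dat i₀).F) = 0 := by
      exact_mod_cast h β j hj
    linear_combination (b j) * h2
  push_cast
  linear_combination (x.s β : ℝ) * h1

theorem ip_two_self' (hb : ∀ j ∈ P, 0 ≤ b j) (n N : ℕ)
    (hN : (N : ℝ) = ∑ j ∈ P, b j) (i i₀ : ι) (t : ℤ)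
    (ht : t = 0 ∨ t = -1) (h1 : Bd A P n (dat i)) (h2 : Bd A P n (dat i₀)) :
    (Cb.two i i₀ t).ip A P b dat (Cb.two i i₀ t) ≤ ((2 * n : ℕ) : ℝ) * N := by
  have hnn : ∀ x y : Dat K I, 0 ≤ GD A P b x y := by
    intro x y
    unfold GD Gn
    exact Finset.sum_nonneg fun j hj => mul_nonneg (hb j hj) (Nat.cast_nonneg _)
  have hg : ∀ x : Dat K I, Bd A P n x → GD A P b x x ≤ n * N := by
    intro x hx
    unfold GD Gn
    rw [hN, Finset.mul_sum]
    refine Finset.sum_le_sum fun j hj => ?_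
    rw [mul_comm]
    exact mul_le_mul_of_nonneg_right (by exact_mod_cast hx j hj) (hb j hj)
  have g1 := hg _ h1
  have g2 := hg _ h2
  have g3 := hnn (dat i) (dat i₀)
  have g4 := hnn (dat i₀) (dat i)
  have g5 := hnn (dat i₀) (dat i₀)
  have g6 : 0 ≤ (n : ℝ) * N := by positivity
  unfold Cb.ip
  rw [Fintype.sum_bool, Fintype.sum_bool, Fintype.sum_bool]
  change ((t : ℝ) * (t : ℝ) * GD A P b (dat i₀) (dat i₀) +
    (t : ℝ) * ((1 : ℤ) : ℝ) * GD A P b (dat i₀) (dat i)) +
    (((1 : ℤ) : ℝ) * (t : ℝ) * GD A P b (dat i) (dat i₀) +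
    ((1 : ℤ) : ℝ) * ((1 : ℤ) : ℝ) * GD A P b (dat i) (dat i)) ≤ _
  push_cast
  rcases ht with rfl | rfl
  · push_cast
    linarith
  · push_cast
    linarith

/-- **Stabilisation.** -/
theorem stab' [Fintype I] (hb : ∀ j ∈ P, 0 ≤ b j) {N : ℕ} (hN : (N : ℝ) = ∑ j ∈ P, b j)
    (hB : Bes A P b dat ρ N) (n k m : ℕ) (Cl : ι → Prop) :
    ∃ M : IntermediateField K (Om K), FiniteDimensional K M ∧ Normal K M ∧
      ((∀ i, Cl i → Module.finrank K (dat i).F ≤ m) →
        Module.finrank K M ≤ (4 ^ (Fintype.card I) * m).factorial ^ (2 * n * (k * N) ^ 2)) ∧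
      (∀ i, Bd A P n (dat i) → Cl i → (∀ j ∈ P, ∀ y ∈ (dat i).F ⊔ M, y ^ 2 ≠ (dat i).pr A j) →
        k * |ρ i| < 1) ∧
      (∀ i i₀, (dat i₀).F = (dat i).F ⊓ M → Bd A P n (dat i) → Bd A P n (dat i₀) → Cl i →
        Rl A P M (dat i) (dat i₀) → k * |ρ i - ρ i₀| < 1) := by
  classical
  obtain ⟨T, hTc, hTQ, hT⟩ := exists_max hB (fun x => (dat (x.a true)).F ≤ (dat (x.a false)).F ∧
    Cl (x.a false)) (2 * n) k
  obtain ⟨M, hM1, hM2, hM, hM3⟩ := exists_field T dat m
  refine ⟨M, hM1, hM2, ?_, ?_, ?_⟩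
  · intro hQ
    refine (hM3 fun x hx => ⟨(hTQ x hx).1, hQ _ (hTQ x hx).2⟩).trans ?_
    exact Nat.pow_le_pow_right (Nat.factorial_pos _) hTc
  · intro i hBd hCl hcond
    by_contra hne
    push Not at hne
    refine hT (Cb.two i i 0) ⟨?_, ip_two_self' hb n N hN i i 0 (Or.inl rfl) hBd hBd,
      ⟨le_rfl, hCl⟩⟩ ?_
    · rw [val_two]
      push_cast
      rw [zero_mul, add_zero]
      exact hne
    · intro x hx
      rw [Cb.ip_symm A P b dat (Cb.two i i 0) x, and_self]
      refine ip_two_eq_zero' x i i 0 fun β j hj => ?_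
      rw [new_zero' M (dat (x.a β)) (dat i) j (hM x hx β) (hcond j hj)]
      simp
  · intro i i₀ hFF hBd hBd' hCl hcond
    by_contra hne
    push Not at hne
    refine hT (Cb.two i i₀ (-1)) ⟨?_, ip_two_self' hb n N hN i i₀ (-1) (Or.inr rfl) hBd hBd',
      ⟨?_, hCl⟩⟩ ?_
    · rw [val_two]
      push_cast
      rw [neg_one_mul, ← sub_eq_add_neg]
      exact hne
    · change (dat i₀).F ≤ (dat i).F
      rw [hFF]
      exact inf_le_left
    · intro x hx
      rw [Cb.ip_symm A P b dat (Cb.two i i₀ (-1)) x, and_self]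
      refine ip_two_eq_zero' x i i₀ (-1) fun β j hj => ?_
      rcases hcond j hj with ⟨h1, h2⟩ | ⟨h1, h2⟩
      · rw [old_eq' M (dat (x.a β)) (dat i) (dat i₀) j hFF (hM x hx β) h1 h2]
        ring
      · have hFM : (dat i₀).F ⊔ M = M := by
          rw [hFF]
          exact sup_eq_right.2 inf_le_right
        rw [new_zero' M (dat (x.a β)) (dat i) j (hM x hx β) h1,
          new_zero' M (dat (x.a β)) (dat i₀) j (hM x hx β) (by rw [hFM]; exact h2)]
        simp

end

end Pool.Agent.W385.TT
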