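import Pool.Agent.W385.TT.Main

/-! Averages over the primes of an extension, in terms of the base field. -/

set_option autoImplicit false

namespace Pool.Agent.W385.TT

open Filter Topology NumberField IsDedekindDomain Pool.Agent.H341R2 Pool.Agent.H341R2.EC
open Pool.Agent.H921R2.TatePole (nm two_le_nm R hc R_eq_hc R_le kerPrime hom_finite)
open Pool.Agent.H126U (PX mem_PX VX mem_VX sum_low sqrt_small pit')
open Pool.Agent.H126U.ST Pool.Agent.H126U.JT Pool.Agent.H126V.Taub
open Pool.Agent.W353.TP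

section
variable {K : Type} [Field K] [NumberField K] {F : Type} [Field F] [NumberField F] [Algebra K F]

/-- the twisted average over the primes of `F`, as an average over the homomorphisms of the base -/
theorem PA_push {J : Type} (P : Finset J) (T : J → HX K → ℝ) (D : J → 𝓞 F)
    (t : J → HeightOneSpectrum (𝓞 F) → ℝ)
    (ht : ∀ j ∈ P, ∀ (p : Nat.Primes) (ψ : 𝓞 F →+* ZMod (p : ℕ)),
      t j (kerPrime p ψ).1.1 = T j ⟨p, res K ψ⟩) (X : ℕ) :
    PA (low fun v : HeightOneSpectrum (𝓞 F) => ∑ j ∈ P, t j v * (chi (D j) v : ℝ)) X =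
      YH P T F D X := by
  classical
  unfold YH
  rw [← PA_HS]
  congr 1
  funext p
  rw [low_kerPrime, ← sum_push (K := K) (F := F) (fun x : HX F => ∑ j ∈ P,
    t j (kerPrime x.1 x.2).1.1 * (chi (D j) (kerPrime x.1 x.2).1.1 : ℝ)) p]
  refine Finset.sum_congr rfl fun u _ => ?_
  unfold push
  rw [Finset.sum_comm]
  refine Finset.sum_congr rfl fun j hj => ?_
  rw [Finset.mul_sum]
  refine Finset.sum_congr rfl fun ψ hψ => ?_
  have h1 : res K ψ = u := (Finset.mem_filter.1 hψ).2
  change t j (kerPrime p ψ).1.1 * (chi (D j) (kerPrime p ψ).1.1 : ℝ) = _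
  rw [ht j hj p ψ, h1, qh_chi]

theorem mn_err (S : Finset (HeightOneSpectrum (𝓞 F))) {err : HeightOneSpectrum (𝓞 F) → ℝ}
    {C : ℝ} (hC : ∀ v, |err v| ≤ C) (herr : Tendsto err cofinite (𝓝 0)) :
    Tendsto (fun X : ℕ => mn (VS S X) err) atTop (𝓝 0) := by
  classical
  have hC0 : 0 ≤ C := by
    obtain ⟨v⟩ := (sysK F).nonempty
    exact (abs_nonneg _).trans (hC v)
  rw [Metric.tendsto_atTop]
  intro ε hε
  have h1 : {v | ¬ |err v| < ε / 2}.Finite := by
    have h2 := Metric.tendsto_nhds.1 herr (ε / 2) (by positivity)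
    rw [Filter.eventually_cofinite] at h2
    refine h2.subset fun v hv => ?_
    simpa [Real.dist_eq] using hv
  have h3 : Tendsto (fun X : ℕ => (h1.toFinset.card : ℝ) * C / ((VS S X).card : ℝ)) atTop (𝓝 0) :=
    tendsto_const_nhds.div_atTop (tendsto_card_VS S)
  have h4 := (h3.eventually_lt_const (by positivity : 0 < ε / 2)).and
    ((tendsto_card_VS S).eventually_gt_atTop 0)
  obtain ⟨N, hN⟩ := Filter.eventually_atTop.1 h4
  refine ⟨N, fun X hX => ?_⟩
  obtain ⟨h5, h6⟩ := hN X hX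
  rw [Real.dist_eq, sub_zero]
  unfold mn
  rw [abs_div, abs_of_pos h6, div_lt_iff₀ h6]
  refine (Finset.abs_sum_le_sum_abs _ _).trans_lt ?_
  have h7 : ∀ v ∈ VS S X, |err v| ≤ ε / 2 + if v ∈ h1.toFinset then C else 0 := by
    intro v _
    by_cases hv : v ∈ h1.toFinset
    · rw [if_pos hv]
      have := hC v
      linarith
    · rw [if_neg hv, add_zero]
      rw [Set.Finite.mem_toFinset] at hv
      have : |err v| < ε / 2 := by
        by_contra h
        exact hv h
      exact this.le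
  refine (Finset.sum_le_sum h7).trans_lt ?_
  rw [Finset.sum_add_distrib, Finset.sum_const, nsmul_eq_mul, ← Finset.sum_filter,
    Finset.sum_const, nsmul_eq_mul]
  have h8 : (((VS S X).filter fun v => v ∈ h1.toFinset).card : ℝ) ≤ h1.toFinset.card := by
    exact_mod_cast Finset.card_le_card fun v hv => (Finset.mem_filter.1 hv).2
  rw [div_lt_iff₀ h6] at h5
  have h9 := mul_le_mul_of_nonneg_right h8 hC0
  linarith

/-- the average over the primes of `F` -/
theorem LA_YH {J : Type} (P : Finset J) (T : J → HX K → ℝ) (b : J → ℝ) (D : J → 𝓞 F)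
    (t : J → HeightOneSpectrum (𝓞 F) → ℝ) (htb : ∀ j ∈ P, ∀ v, |t j v| ≤ b j)
    (ht : ∀ j ∈ P, ∀ (p : Nat.Primes) (ψ : 𝓞 F →+* ZMod (p : ℕ)),
      t j (kerPrime p ψ).1.1 = T j ⟨p, res K ψ⟩) (c : ℝ)
    (S : Finset (HeightOneSpectrum (𝓞 F))) (φ err : HeightOneSpectrum (𝓞 F) → ℝ) {C : ℝ}
    (hC : ∀ v, |err v| ≤ C) (herr : Tendsto err cofinite (𝓝 0))
    (hφ : ∀ v, v ∉ S → φ v = c + ∑ j ∈ P, t j v * (chi (D j) v : ℝ) + err v) :
    Tendsto (fun X : ℕ => LA S X φ - (c + YH P T F D X)) atTop (𝓝 0) := by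
  classical
  set B : ℝ := ∑ j ∈ P, b j with hB
  have hC0 : 0 ≤ C := by
    obtain ⟨v⟩ := (sysK F).nonempty
    exact (abs_nonneg _).trans (hC v)
  set ψ : HeightOneSpectrum (𝓞 F) → ℝ := fun v => ∑ j ∈ P, t j v * (chi (D j) v : ℝ) with hψ
  have hψb : ∀ v, |ψ v| ≤ B := by
    intro v
    refine (Finset.abs_sum_le_sum_abs _ _).trans (Finset.sum_le_sum fun p hp => ?_)
    rw [abs_mul]
    exact (mul_le_of_le_one_right (abs_nonneg _) (chi_abs _ v)).trans (htb p hp v)
  have hB0 : 0 ≤ B := by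
    obtain ⟨v⟩ := (sysK F).nonempty
    exact (abs_nonneg _).trans (hψb v)
  have hφb : ∀ v, v ∉ S → |φ v| ≤ |c| + B + C := by
    intro v hv
    rw [hφ v hv]
    refine (abs_add_le _ _).trans (add_le_add ?_ (hC v))
    exact (abs_add_le _ _).trans (add_le_add le_rfl (hψb v))
  have h1 := LA_mn S (φ := φ) (B := |c| + B + C) (by positivity) hφb
  have h2 := mn_change' S ∅ (φ := ψ) (b := B) hψb
  have h3 := mn_err S hC herr
  -- from means to averages over the number of primes
  have h5 : Tendsto (fun X : ℕ => mn (VS ∅ X) ψ - (∑ v ∈ VX F X, ψ v) / pc X) atTop (𝓝 0) := by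
    have h6 : Tendsto (fun X : ℕ => B * |1 - ((VX F X).card : ℝ) / pc X|) atTop (𝓝 0) := by
      have h7 : Tendsto (fun X : ℕ => ((VX F X).card : ℝ) / pc X) atTop (𝓝 1) :=
        Pool.Agent.H126U.card_VX
      have h8 := ((h7.const_sub 1).abs).const_mul B
      simpa using h8
    refine squeeze_zero_norm' ?_ h6
    filter_upwards [(tendsto_card_VS (K := F) ∅).eventually_gt_atTop 0] with X hX
    have e0 : VS (K := F) ∅ X = VX F X := by
      unfold VS
      simp
    rw [e0] at hX ⊢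
    have e1 : mn (VX F X) ψ - (∑ v ∈ VX F X, ψ v) / pc X =
        mn (VX F X) ψ * (1 - ((VX F X).card : ℝ) / pc X) := by
      have e2 : ∑ v ∈ VX F X, ψ v = mn (VX F X) ψ * ((VX F X).card : ℝ) := by
        unfold mn
        exact (div_mul_cancel₀ _ hX.ne').symm
      rw [e2]
      ring
    rw [e1, Real.norm_eq_abs, abs_mul]
    exact mul_le_mul_of_nonneg_right (mn_abs_le _ hB0 fun v _ => hψb v) (abs_nonneg _)
  have h6 := PA_low ψ hψb
  have h7 := (((h1.add h2).add h3).add h5).add h6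
  simp only [add_zero] at h7
  refine h7.congr' ?_
  filter_upwards [(tendsto_card_VS S).eventually_gt_atTop 0] with X hX
  have e3 : mn (VS S X) φ = c + mn (VS S X) ψ + mn (VS S X) err := by
    have e4 := mn_add (VS S X) (fun _ => c) ψ
    have e5 : mn (VS S X) (fun _ : HeightOneSpectrum (𝓞 F) => c) = c := by
      unfold mn
      rw [Finset.sum_const, nsmul_eq_mul, mul_comm]
      exact mul_div_cancel_right₀ _ hX.ne'
    have e6 := mn_add (VS S X) (fun v => c + ψ v) err
    rw [e5] at e4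
    rw [e4] at e6
    rw [← e6]
    refine mn_congr _ fun v hv => ?_
    exact hφ v (Finset.mem_filter.1 hv).2
  have e7 : PA (low ψ) X = YH P T F D X := PA_push P T D t ht X
  rw [e3, e7]
  ring

end

end Pool.Agent.W385.TT
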