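import Pool.Agent.W385.TT.Stab

/-! Countability of the set of twists over number fields. -/

set_option autoImplicit false

namespace Pool.Agent.W385.TT

open NumberField IsDedekindDomain
open Pool.Agent.W353.TP

section
variable (K : Type) [Field K] [NumberField K]

theorem countable_nf (F : Type) [Field F] [NumberField F] : Countable F := by
  have h : Module.Finite ℚ F := inferInstance
  let b := Module.finBasis ℚ F
  exact b.equivFun.toEquiv.countable_iff.2 inferInstance

theorem countable_Om : Countable (Om K) := by
  have := countable_nf K
  have h := Algebra.IsAlgebraic.cardinalMk_le_max K (Om K)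
  have h1 : Cardinal.mk K ≤ Cardinal.aleph0 := Cardinal.mk_le_aleph0_iff.2 inferInstance
  rw [← Cardinal.mk_le_aleph0_iff]
  exact h.trans (max_le h1 le_rfl)

theorem countable_IF : Countable {F : IntermediateField K (Om K) // FiniteDimensional K F} := by
  have := countable_Om K
  let g : Finset (Om K) → IntermediateField K (Om K) := fun s => IntermediateField.adjoin K s
  have h1 : (Set.range g).Countable := Set.countable_range g
  have h2 : {F : IntermediateField K (Om K) | FiniteDimensional K F} ⊆ Set.range g := by
    intro F hF
    have hF' : FiniteDimensional K F := hF
    have h3 : Algebra.EssFiniteType K F := inferInstance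
    obtain ⟨s, hs⟩ := IntermediateField.essFiniteType_iff.1 h3
    exact ⟨s, hs⟩
  exact (h1.mono h2).to_subtype

theorem countable_ideal (R : Type) [CommRing R] [IsNoetherianRing R] [Countable R] :
    Countable (Ideal R) := by
  classical
  let g : Finset R → Ideal R := fun s => Ideal.span (s : Set R)
  have hg : Function.Surjective g := by
    intro I
    obtain ⟨s, hs⟩ := (isNoetherianRing_iff_ideal_fg R).1 inferInstance I
    exact ⟨s, hs⟩
  exact hg.countable

theorem countable_spec (F : Type) [Field F] [NumberField F] :
    Countable (HeightOneSpectrum (𝓞 F)) := by
  have h1 := countable_nf F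
  have h2 : Countable (𝓞 F) := by
    have : Function.Injective (fun x : 𝓞 F => (x : F)) := fun a b hab => RingOfIntegers.ext hab
    exact this.countable
  have h3 := countable_ideal (𝓞 F)
  have h4 : Function.Injective (fun v : HeightOneSpectrum (𝓞 F) => v.asIdeal) :=
    fun v w h => HeightOneSpectrum.ext h
  exact h4.countable

theorem countable_int (F : Type) [Field F] [NumberField F] : Countable (𝓞 F) := by
  have h1 := countable_nf F
  have : Function.Injective (fun x : 𝓞 F => (x : F)) := fun a b hab => RingOfIntegers.ext hab
  exact this.countable

/-- countability of the data of twists, with a finite set of primes -/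
theorem countable_data (I : Type) [Finite I] : Countable (Σ F : {F : IntermediateField K (Om K) //
    NumberField F}, (I → 𝓞 F.1) × Finset (HeightOneSpectrum (𝓞 F.1))) := by
  have h0 : Countable {F : IntermediateField K (Om K) // NumberField F} := by
    have h1 := countable_IF K
    let g : {F : IntermediateField K (Om K) // NumberField F} →
        {F : IntermediateField K (Om K) // FiniteDimensional K F} := fun F =>
      ⟨F.1, by
        have := F.2
        exact Module.Finite.of_restrictScalars_finite ℚ K F.1⟩
    have hg : Function.Injective g := by
      intro a b h
      exact Subtype.ext (congrArg (fun z => z.1) h)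
    exact hg.countable
  have h2 : ∀ F : {F : IntermediateField K (Om K) // NumberField F},
      Countable ((I → 𝓞 F.1) × Finset (HeightOneSpectrum (𝓞 F.1))) := by
    intro F
    have := F.2
    have h3 := countable_int F.1
    have h4 := countable_spec F.1
    infer_instance
  infer_instance

end

end Pool.Agent.W385.TT
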