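import Pool.Agent.W385.TT.Count
import Pool.Agent.W353.TP.Types

/-! Products of quadratic twists of hyperelliptic curves over all extensions. -/

set_option autoImplicit false

namespace Pool.Agent.W385.TT

open Filter Topology NumberField IsDedekindDomain Pool.Agent.H341R2 Pool.Agent.H341R2.EC Polynomial
open Pool.Agent.H921R2.TatePole (nm two_le_nm R hc R_eq_hc R_le kerPrime hom_finite)
open Pool.Agent.H126U.ST Pool.Agent.H126V.Taub
open Pool.Agent.H126T (pairs bb bb_pos Sv traceH2)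
open Pool.Agent.W353.TP

section
variable {K : Type} [Field K] [NumberField K] {r : ℕ}

open Classical in
/-- the untwisted coefficients over the base field -/
noncomputable def tH (f : Fin r → (𝓞 K)[X]) (j : Fin r × Fin r) (x : HX K) : ℝ :=
  if x.2 2 ≠ 0 ∧ x.2 (f j.1).leadingCoeff ≠ 0 ∧ x.2 (f j.2).leadingCoeff ≠ 0
    then ((SH (f j.1) x * SH (f j.2) x : ℤ) : ℝ) / ((x.1 : ℕ) : ℝ) else 0

theorem tr_ker {F : Type} [Field F] [NumberField F] (ι : 𝓞 K →+* 𝓞 F)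
    (hι : Function.Injective ι) (f : Fin r → (𝓞 K)[X])
    (j : Fin r × Fin r) (p : Nat.Primes) (ψ : 𝓞 F →+* ZMod (p : ℕ)) :
    tr' (fun i => (f i).map ι) j (kerPrime p ψ).1.1 = tH f j ⟨p, ψ.comp ι⟩ := by
  unfold tr' tH
  have h1 : ((2 : 𝓞 F) ∉ (kerPrime p ψ).1.1.asIdeal ∧
      ((f j.1).map ι).leadingCoeff ∉ (kerPrime p ψ).1.1.asIdeal ∧
      ((f j.2).map ι).leadingCoeff ∉ (kerPrime p ψ).1.1.asIdeal) ↔
      ((ψ.comp ι) 2 ≠ 0 ∧ (ψ.comp ι) (f j.1).leadingCoeff ≠ 0 ∧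
        (ψ.comp ι) (f j.2).leadingCoeff ≠ 0) := by
    rw [mem_ker_iff, mem_ker_iff, mem_ker_iff, Polynomial.leadingCoeff_map_of_injective hι,
      Polynomial.leadingCoeff_map_of_injective hι, RingHom.comp_apply, RingHom.comp_apply,
      RingHom.comp_apply, map_ofNat ι]
  by_cases h : (ψ.comp ι) 2 ≠ 0 ∧ (ψ.comp ι) (f j.1).leadingCoeff ≠ 0 ∧
        (ψ.comp ι) (f j.2).leadingCoeff ≠ 0
  · rw [if_pos (h1.2 h), if_pos h, Sv_ker, Sv_ker, nm_kerPrime]
  · rw [if_neg (fun h' => h (h1.1 h')), if_neg h]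

theorem abs_tH {f : Fin r → (𝓞 K)[X]} (hodd : ∀ i, Odd (f i).natDegree)
    (h3 : ∀ i, 3 ≤ (f i).natDegree) (j : Fin r × Fin r) (x : HX K) : |tH f j x| ≤ bb f j := by
  rcases x with ⟨p, φ⟩
  have h1 := tr_ker (RingHom.id (𝓞 K)) Function.injective_id f j p φ
  rw [RingHom.comp_id] at h1
  have h2 : (fun i => (f i).map (RingHom.id (𝓞 K))) = f := by
    funext i
    exact Polynomial.map_id
  rw [h2] at h1
  rw [← h1]
  exact abs_tr' hodd h3 j _

/-- the two factors of a pair -/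
def AP (j : Fin r × Fin r) : Finset (Fin r) := {j.1, j.2}

theorem prod_AP {M : Type*} [CommMonoid M] (g : Fin r → M) {j : Fin r × Fin r}
    (hj : j ∈ pairs r) : ∏ i ∈ AP j, g i = g j.1 * g j.2 := by
  have h : j.1 ≠ j.2 := by
    unfold pairs at hj
    exact ne_of_lt (Finset.mem_filter.1 hj).2
  unfold AP
  exact Finset.prod_pair h

theorem D_AP (x : Dat K (Fin r)) {j : Fin r × Fin r} (hj : j ∈ pairs r) :
    x.D AP j = x.d j.1 * x.d j.2 := prod_AP x.d hj

/-- the average of `H²` of a product of twists -/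
noncomputable def avC {f : Fin r → (𝓞 K)[X]} (hodd : ∀ i, Odd (f i).natDegree)
    (h3 : ∀ i, 3 ≤ (f i).natDegree) (x : Dat K (Fin r)) (S : Finset (HeightOneSpectrum (𝓞 x.F)))
    (hS : ∀ v, v ∉ S → Pool.Agent.H126T.Gd (bc x.F f) x.d v) :
    Av K (pairs r) (tH f) (bb f) r where
  F := x.F
  nf := x.nf
  D := x.D AP
  hD := fun j _ => x.D_ne AP j
  S := S
  φ := fun v => (traceH2 v (bc x.F f) x.d 1 : ℝ) / (nm v : ℝ)
  t := tr' (bc x.F f)
  htb := fun j _ v => by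
    have hodd' : ∀ i, Odd (bc x.F f i).natDegree := fun i => by rw [bc_natDegree]; exact hodd i
    have h3' : ∀ i, 3 ≤ (bc x.F f i).natDegree := fun i => by rw [bc_natDegree]; exact h3 i
    have := abs_tr' hodd' h3' j v
    rwa [bc_bb] at this
  ht := fun j _ p ψ => tr_ker (algebraMap (𝓞 K) (𝓞 x.F)) alg_inj f j p ψ
  err := fun _ => 0
  C := 0
  hC := fun _ => by simp
  herr := tendsto_const_nhds
  hφ := fun v hv => by
    rw [trace_eq (hS v hv), add_zero]
    congr 1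
    refine Finset.sum_congr rfl fun j hj => ?_
    rw [D_AP x hj]

theorem avC_G {f : Fin r → (𝓞 K)[X]} (hodd : ∀ i, Odd (f i).natDegree)
    (h3 : ∀ i, 3 ≤ (f i).natDegree) (x : Dat K (Fin r)) (S : Finset (HeightOneSpectrum (𝓞 x.F)))
    (hS : ∀ v, v ∉ S → Pool.Agent.H126T.Gd (bc x.F f) x.d v)
    (y : Dat K (Fin r)) (S' : Finset (HeightOneSpectrum (𝓞 y.F)))
    (hS' : ∀ v, v ∉ S' → Pool.Agent.H126T.Gd (bc y.F f) y.d v) :
    (avC hodd h3 x S hS).G (avC hodd h3 y S' hS') = GD AP (pairs r) (bb f) x y := rfl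

end

end Pool.Agent.W385.TT
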