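import Pool.Agent.W385.TT.Curves
import Pool.Agent.H126V.FD

/-! Averages over the fibres of families of curves, over all extensions. -/

set_option autoImplicit false

namespace Pool.Agent.W385.TT

open Filter Topology NumberField IsDedekindDomain Pool.Agent.H341R2 Pool.Agent.H341R2.EC Polynomial
open Pool.Agent.H921R2.TatePole (nm two_le_nm R hc R_eq_hc R_le kerPrime hom_finite)
open Pool.Agent.H126U.ST Pool.Agent.H126V.Taub Pool.Agent.H126V.FA Pool.Agent.H126V.FD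
open Pool.Agent.H126T (pairs nm_pos')
open Pool.Agent.W353.TP (HX push qh res Om mem_ker_iff alg_inj)

section
variable {K F : Type} [Field K] [NumberField K] [Field F] [NumberField F] [Algebra K F]
  {σ : Type}

/-- the coefficients, read over an extension -/
noncomputable def cF (F : Type) [Field F] [NumberField F] [Algebra K F] (σ : Type) :
    MvPolynomial σ (𝓞 K) →+* MvPolynomial σ (𝓞 F) := MvPolynomial.map (algebraMap (𝓞 K) (𝓞 F))

/-- the isomorphism of residue fields at primes of degree one -/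
noncomputable def eR (p : Nat.Primes) (ψ : 𝓞 F →+* ZMod (p : ℕ)) :
    (𝓞 K ⧸ (kerPrime p (res K ψ)).1.1.asIdeal) ≃+* (𝓞 F ⧸ (kerPrime p ψ).1.1.asIdeal) :=
  (RingHom.quotientKerEquivOfSurjective (ZMod.ringHom_surjective (res K ψ))).trans
    (RingHom.quotientKerEquivOfSurjective (ZMod.ringHom_surjective ψ)).symm

theorem eR_mk (p : Nat.Primes) (ψ : 𝓞 F →+* ZMod (p : ℕ)) (a : 𝓞 K) :
    eR p ψ (Ideal.Quotient.mk _ a) = Ideal.Quotient.mk _ (algebraMap (𝓞 K) (𝓞 F) a) := by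
  refine (RingEquiv.symm_apply_eq (RingHom.quotientKerEquivOfSurjective
    (ZMod.ringHom_surjective ψ))).2 ?_
  rfl

theorem eR_hom (p : Nat.Primes) (ψ : 𝓞 F →+* ZMod (p : ℕ))
    (t : σ → 𝓞 K ⧸ (kerPrime p (res K ψ)).1.1.asIdeal) :
    (MvPolynomial.eval₂Hom (Ideal.Quotient.mk (kerPrime p ψ).1.1.asIdeal)
      (fun i => eR p ψ (t i))).comp (cF F σ) =
    (eR (K := K) p ψ).toRingHom.comp
      (MvPolynomial.eval₂Hom (Ideal.Quotient.mk (kerPrime p (res K ψ)).1.1.asIdeal) t) := by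
  refine MvPolynomial.ringHom_ext (fun a => ?_) (fun i => ?_)
  · unfold cF
    simp only [RingHom.comp_apply, MvPolynomial.map_C, MvPolynomial.eval₂Hom_C]
    exact (eR_mk p ψ a).symm
  · unfold cF
    simp only [RingHom.comp_apply, MvPolynomial.map_X, MvPolynomial.eval₂Hom_X']
    rfl

theorem ev_bc (p : Nat.Primes) (ψ : 𝓞 F →+* ZMod (p : ℕ))
    (t : σ → 𝓞 K ⧸ (kerPrime p (res K ψ)).1.1.asIdeal) (N : MvPolynomial σ (𝓞 K)) :
    ev (kerPrime p ψ).1.1 (fun i => eR p ψ (t i)) (cF F σ N) =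
      eR p ψ (ev (kerPrime p (res K ψ)).1.1 t N) :=
  RingHom.congr_fun (eR_hom p ψ t) N

theorem fib_bc (p : Nat.Primes) (ψ : 𝓞 F →+* ZMod (p : ℕ))
    (t : σ → 𝓞 K ⧸ (kerPrime p (res K ψ)).1.1.asIdeal) (f : (MvPolynomial σ (𝓞 K))[X]) :
    fib (kerPrime p ψ).1.1 (fun i => eR p ψ (t i)) (f.map (cF F σ)) =
      (fib (kerPrime p (res K ψ)).1.1 t f).map (eR (K := K) p ψ).toRingHom := by
  unfold fib
  rw [Polynomial.map_map, Polynomial.map_map, eR_hom]

theorem at1_bc (p : Nat.Primes) (ψ : 𝓞 F →+* ZMod (p : ℕ))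
    (t : σ → 𝓞 K ⧸ (kerPrime p (res K ψ)).1.1.asIdeal) (f : (MvPolynomial σ (𝓞 K))[X]) :
    at1 (kerPrime p ψ).1.1 (fun i => eR p ψ (t i)) (f.map (cF F σ)) 1 =
      at1 (kerPrime p (res K ψ)).1.1 t f 1 := by
  unfold at1
  rw [nm_kerPrime, nm_kerPrime]
  congr 2
  refine (Nat.card_congr ?_).symm
  refine Equiv.subtypeEquiv ((eR p ψ).toEquiv.prodCongr (eR p ψ).toEquiv) fun P => ?_
  change _ ↔ Ideal.Quotient.mk _ (1 : 𝓞 F) * (eR p ψ P.2) ^ 2 = Polynomial.eval (eR p ψ P.1) _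
  rw [fib_bc, Polynomial.eval_map]
  have h1 : Polynomial.eval₂ (eR (K := K) p ψ).toRingHom (eR p ψ P.1)
      (fib (kerPrime p (res K ψ)).1.1 t f) =
      eR p ψ ((fib (kerPrime p (res K ψ)).1.1 t f).eval P.1) :=
    Polynomial.eval₂_hom (eR (K := K) p ψ).toRingHom P.1
  rw [h1, map_one, map_one, one_mul, one_mul, ← map_pow]
  exact (eR p ψ).injective.eq_iff.symm

theorem tp_bc [Fintype σ] {r : ℕ} (f : Fin r → (MvPolynomial σ (𝓞 K))[X])
    (N : MvPolynomial σ (𝓞 K)) (j : Fin r × Fin r) (p : Nat.Primes)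
    (ψ : 𝓞 F →+* ZMod (p : ℕ)) :
    tp (fun i => (f i).map (cF F σ)) (cF F σ N) j (kerPrime p ψ).1.1 =
      tp f N j (kerPrime p (res K ψ)).1.1 := by
  classical
  unfold tp
  have h2 : (2 : 𝓞 F) ∉ (kerPrime p ψ).1.1.asIdeal ↔
      (2 : 𝓞 K) ∉ (kerPrime p (res K ψ)).1.1.asIdeal := by
    rw [mem_ker_iff, mem_ker_iff, map_ofNat ψ, map_ofNat (res K ψ)]
  by_cases h : (2 : 𝓞 K) ∉ (kerPrime p (res K ψ)).1.1.asIdeal
  · rw [if_pos (h2.2 h), if_pos h, nm_kerPrime, nm_kerPrime]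
    congr 1
    let E : (σ → 𝓞 K ⧸ (kerPrime p (res K ψ)).1.1.asIdeal) ≃
        (σ → 𝓞 F ⧸ (kerPrime p ψ).1.1.asIdeal) := Equiv.piCongrRight fun _ => (eR p ψ).toEquiv
    rw [← finsum_comp_equiv E]
    refine finsum_congr fun t => ?_
    change (if ev (kerPrime p ψ).1.1 (fun i => eR p ψ (t i)) (cF F σ N) = 0 then (0 : ℝ) else
      (at1 (kerPrime p ψ).1.1 (fun i => eR p ψ (t i)) ((f j.1).map (cF F σ)) 1 : ℝ) *
      (at1 (kerPrime p ψ).1.1 (fun i => eR p ψ (t i)) ((f j.2).map (cF F σ)) 1 : ℝ)) = _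
    rw [ev_bc, at1_bc, at1_bc]
    simp only [map_eq_zero_iff _ (eR p ψ).injective]
  · rw [if_neg (fun h' => h (h2.1 h')), if_neg h]

/-- the bad locus -/
def Loc {r : ℕ} (f : Fin r → (MvPolynomial σ (𝓞 K))[X]) (N : MvPolynomial σ (𝓞 K)) : Prop :=
  ∀ (k : Type) [Field k] (φ : 𝓞 K →+* k) (t : σ → k), φ 2 ≠ 0 → MvPolynomial.eval₂ φ t N ≠ 0 →
    ∀ i, MvPolynomial.eval₂ φ t (f i).leadingCoeff ≠ 0

theorem cF_injective : Function.Injective (cF (K := K) F σ) :=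
  MvPolynomial.map_injective _ alg_inj

theorem Loc.over {r : ℕ} {f : Fin r → (MvPolynomial σ (𝓞 K))[X]} {N : MvPolynomial σ (𝓞 K)}
    (h : Loc f N) (v : HeightOneSpectrum (𝓞 F)) (h2 : (2 : 𝓞 F) ∉ v.asIdeal)
    (t : σ → 𝓞 F ⧸ v.asIdeal) (ht : ev v t (cF F σ N) ≠ 0) (i : Fin r) :
    ev v t ((f i).map (cF F σ)).leadingCoeff ≠ 0 := by
  haveI : v.asIdeal.IsMaximal := v.isMaximal
  letI : Field (𝓞 F ⧸ v.asIdeal) := Ideal.Quotient.field v.asIdeal
  have h1 : ∀ P : MvPolynomial σ (𝓞 K), ev v t (cF F σ P) =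
      MvPolynomial.eval₂ ((Ideal.Quotient.mk v.asIdeal).comp (algebraMap (𝓞 K) (𝓞 F))) t P := by
    intro P
    unfold Pool.Agent.H126V.FD.ev cF
    rw [MvPolynomial.coe_eval₂Hom, MvPolynomial.eval₂_map]
  rw [Polynomial.leadingCoeff_map_of_injective cF_injective, h1]
  refine h (𝓞 F ⧸ v.asIdeal) _ t ?_ ?_ i
  · rw [RingHom.comp_apply, map_ofNat, Ne, Ideal.Quotient.eq_zero_iff_mem]
    exact h2
  · rw [h1] at ht
    exact ht

theorem bb_map {r : ℕ} (f : Fin r → (MvPolynomial σ (𝓞 K))[X]) (j : Fin r × Fin r) :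
    bb (fun i => (f i).map (cF F σ)) j = bb f j := by
  unfold bb
  rw [Polynomial.natDegree_map_eq_of_injective cF_injective,
    Polynomial.natDegree_map_eq_of_injective cF_injective]

theorem abs_tp' [Fintype σ] {r : ℕ} {f : Fin r → (MvPolynomial σ (𝓞 K))[X]}
    (hodd : ∀ i, Odd (f i).natDegree) (h3 : ∀ i, 3 ≤ (f i).natDegree)
    {N : MvPolynomial σ (𝓞 K)} (hN : Loc f N) (j : Fin r × Fin r)
    (v : HeightOneSpectrum (𝓞 F)) :
    |tp (fun i => (f i).map (cF F σ)) (cF F σ N) j v| ≤ bb f j := by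
  have hdeg : ∀ i, ((f i).map (cF F σ)).natDegree = (f i).natDegree := fun i =>
    Polynomial.natDegree_map_eq_of_injective cF_injective _
  have h := abs_tp (f := fun i => (f i).map (cF F σ)) (N := cF F σ N)
    (fun i => by rw [hdeg]; exact hodd i) (fun i => by rw [hdeg]; exact h3 i)
    (fun v h2 t ht i => hN.over v h2 t ht i) j v
  rwa [bb_map] at h

end

section
variable {K : Type} [Field K] [NumberField K] {σ : Type} [Fintype σ] {r : ℕ}

/-- the coefficients over the base -/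
noncomputable def tF (f : Fin r → (MvPolynomial σ (𝓞 K))[X]) (N : MvPolynomial σ (𝓞 K))
    (j : Fin r × Fin r) (x : HX K) : ℝ := tp f N j (kerPrime x.1 x.2).1.1

theorem abs_tF {f : Fin r → (MvPolynomial σ (𝓞 K))[X]}
    (hodd : ∀ i, Odd (f i).natDegree) (h3 : ∀ i, 3 ≤ (f i).natDegree)
    {N : MvPolynomial σ (𝓞 K)} (hN : Loc f N) (j : Fin r × Fin r) (x : HX K) :
    |tF f N j x| ≤ bb f j := by
  rcases x with ⟨p, φ⟩
  have h1 := tp_bc (F := K) f N j p φ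
  have h2 := abs_tp' (F := K) hodd h3 hN j (kerPrime p φ).1.1
  have h3 : res K φ = φ := by
    exact RingHom.ext fun x => rfl
  rw [h1, h3] at h2
  exact h2

/-- the average over the fibres of a product of families of curves -/
noncomputable def avF {f : Fin r → (MvPolynomial σ (𝓞 K))[X]} {N : MvPolynomial σ (𝓞 K)}
    (hodd : ∀ i, Odd (f i).natDegree) (h3 : ∀ i, 3 ≤ (f i).natDegree) (hN : Loc f N)
    (x : Dat K (Fin r)) (S : Finset (HeightOneSpectrum (𝓞 x.F)))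
    (hS : ∀ v, v ∉ S → ∀ i, (2 : 𝓞 x.F) ∉ v.asIdeal ∧ x.d i ∉ v.asIdeal) :
    Av K (pairs r) (tF f N) (bb f) r where
  F := x.F
  nf := x.nf
  D := x.D AP
  hD := fun j _ => x.D_ne AP j
  S := S
  φ := fun v => BB (fun i => (f i).map (cF x.F σ)) x.d (cF x.F σ N) v / nm v
  t := tp (fun i => (f i).map (cF x.F σ)) (cF x.F σ N)
  htb := fun j _ v => abs_tp' hodd h3 hN j v
  ht := fun j _ p ψ => tp_bc f N j p ψ
  err := fun _ => 0
  C := 0
  hC := fun _ => by simp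
  herr := tendsto_const_nhds
  hφ := fun v hv => by
    rw [BB_eq (hS v hv), add_zero]
    congr 1
    refine Finset.sum_congr rfl fun j hj => ?_
    rw [D_AP x hj]

end

end Pool.Agent.W385.TT
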