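import Pool.Agent.W353.TP.Gram
import Pool.Agent.H126V.Taub

/-! The Gram matrix of the quadratic characters of the finite extensions of a number field, in the
sense of natural averages over primes. -/

set_option autoImplicit false

namespace Pool.Agent.W385.TT

open Filter Topology NumberField IsDedekindDomain Pool.Agent.H341R2 Pool.Agent.H341R2.EC
open Pool.Agent.H921R2.TatePole (nm two_le_nm R hc R_eq_hc R_le kerPrime hom_finite)
open Pool.Agent.H126U (PX mem_PX VX mem_VX sum_low sqrt_small pit')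
open Pool.Agent.W353.TP
open scoped TensorProduct

/-- the number of primes up to `X` -/
noncomputable def pc (X : ℕ) : ℝ := (Nat.primeCounting X : ℝ)

theorem pc_tendsto : Tendsto pc atTop atTop :=
  tendsto_natCast_atTop_atTop.comp Nat.tendsto_primeCounting

theorem pc_nonneg (X : ℕ) : 0 ≤ pc X := Nat.cast_nonneg _

/-- averages over the primes up to `X` -/
noncomputable def PA (a : Nat.Primes → ℝ) (X : ℕ) : ℝ := (∑ p ∈ PX X, a p) / pc X

theorem PA_add (a b : Nat.Primes → ℝ) (X : ℕ) : PA (fun p => a p + b p) X = PA a X + PA b X := by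
  unfold PA
  rw [Finset.sum_add_distrib, add_div]

theorem PA_sub (a b : Nat.Primes → ℝ) (X : ℕ) : PA (fun p => a p - b p) X = PA a X - PA b X := by
  unfold PA
  rw [Finset.sum_sub_distrib, sub_div]

theorem PA_mul (c : ℝ) (a : Nat.Primes → ℝ) (X : ℕ) : PA (fun p => c * a p) X = c * PA a X := by
  unfold PA
  rw [← Finset.mul_sum, mul_div_assoc]

theorem PA_sum {κ : Type*} (T : Finset κ) (a : κ → Nat.Primes → ℝ) (X : ℕ) :
    PA (fun p => ∑ k ∈ T, a k p) X = ∑ k ∈ T, PA (a k) X := by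
  unfold PA
  rw [Finset.sum_comm, Finset.sum_div]

theorem primes_dvd_finite {N : ℤ} (hN : N ≠ 0) :
    {p : Nat.Primes | ((p : ℕ) : ℤ) ∣ N}.Finite := by
  have h1 : (N.natAbs.primeFactors : Set ℕ).Finite := Finset.finite_toSet _
  refine (h1.preimage (f := fun p : Nat.Primes => (p : ℕ)) ?_).subset ?_
  · exact fun a _ b _ h => Subtype.ext h
  · intro p hp
    simp only [Set.mem_preimage, Finset.mem_coe, Nat.mem_primeFactors]
    refine ⟨p.2, ?_, Int.natAbs_ne_zero.2 hN⟩
    exact Int.natCast_dvd.1 hp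

/-- finitely many primes do not matter -/
theorem PA_finite {a : Nat.Primes → ℝ} {A : Set Nat.Primes} (hA : A.Finite)
    (h : ∀ p, p ∉ A → a p = 0) : Tendsto (PA a) atTop (𝓝 0) := by
  classical
  have h0 : Tendsto (fun X : ℕ => (∑ p ∈ hA.toFinset, |a p|) / pc X) atTop (𝓝 0) :=
    tendsto_const_nhds.div_atTop pc_tendsto
  refine squeeze_zero_norm (fun X => ?_) h0
  unfold PA
  rw [Real.norm_eq_abs, abs_div, abs_of_nonneg (pc_nonneg X)]
  refine div_le_div_of_nonneg_right ?_ (pc_nonneg X)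
  refine (Finset.abs_sum_le_sum_abs _ _).trans ?_
  rw [← Finset.sum_filter_add_sum_filter_not (PX X) (fun p : Nat.Primes => p ∈ A)]
  have h1 : ∑ p ∈ (PX X).filter (fun p : Nat.Primes => p ∉ A), |a p| = 0 := by
    refine Finset.sum_eq_zero fun p hp => ?_
    rw [h p (Finset.mem_filter.1 hp).2, abs_zero]
  rw [h1, add_zero]
  refine Finset.sum_le_sum_of_subset_of_nonneg ?_ fun _ _ _ => abs_nonneg _
  intro p hp
  rw [Set.Finite.mem_toFinset]
  exact (Finset.mem_filter.1 hp).2

theorem PA_congr {a b : Nat.Primes → ℝ} {N : ℤ} (hN : N ≠ 0)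
    (h : ∀ p : Nat.Primes, ¬ ((p : ℕ) : ℤ) ∣ N → a p = b p) {l : ℝ}
    (hb : Tendsto (PA b) atTop (𝓝 l)) : Tendsto (PA a) atTop (𝓝 l) := by
  have h1 := (PA_finite (a := fun p => a p - b p) (primes_dvd_finite hN) (fun p hp => by
    rw [h p hp, sub_self])).add hb
  rw [zero_add] at h1
  refine h1.congr fun X => ?_
  rw [PA_sub]
  ring

section
variable {K : Type} [Field K] [NumberField K]

theorem PA_hc : Tendsto (PA fun p => (hc (𝓞 K) (p : ℕ) : ℝ)) atTop (𝓝 1) := pit' K

/-- from averages over prime ideals to averages over primes -/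
theorem PA_low (g : HeightOneSpectrum (𝓞 K) → ℝ) {C : ℝ} (hg : ∀ v, |g v| ≤ C) :
    Tendsto (fun X : ℕ => (∑ v ∈ VX K X, g v) / pc X - PA (low g) X) atTop (𝓝 0) := by
  have h0 := sqrt_small (Module.finrank ℚ K * C)
  refine squeeze_zero_norm (fun X => ?_) h0
  unfold PA
  rw [← sub_div, Real.norm_eq_abs, abs_div, abs_of_nonneg (pc_nonneg X)]
  refine div_le_div_of_nonneg_right ?_ (pc_nonneg X)
  refine (sum_low g hg X).trans (le_of_eq ?_)
  ring

open Classical in
/-- the mean value of a quadratic character of one field -/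
theorem low_mean {D : 𝓞 K} (hD : D ≠ 0) :
    Tendsto (PA (low fun v : HeightOneSpectrum (𝓞 K) => (chi D v : ℝ))) atTop
      (𝓝 (if IsSquare (D : K) then 1 else 0)) := by
  by_cases hsq : IsSquare (D : K)
  · rw [if_pos hsq]
    refine PA_congr (N0_ne_zero hD) (fun p hp => ?_) (PA_hc (K := K))
    have : Fact (p : ℕ).Prime := ⟨p.2⟩
    rw [low_kerPrime]
    have h4 : ∀ u : 𝓞 K →+* ZMod (p : ℕ), ((chi D (kerPrime p u).1.1 : ℤ) : ℝ) = 1 := by
      intro u
      rw [chi_kerPrime]
      have h5 : quadraticChar (ZMod (p : ℕ)) (u D) = 1 := by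
        obtain ⟨b, hb⟩ := hsq
        have hbi : IsIntegral ℤ b := by
          apply IsIntegral.of_pow (by norm_num : 0 < 2)
          rw [sq, ← hb]
          exact RingOfIntegers.isIntegral_coe D
        obtain ⟨b', hb'⟩ : ∃ b' : 𝓞 K, (b' : K) = b := ⟨⟨b, hbi⟩, rfl⟩
        have h6 : D = b' * b' := RingOfIntegers.ext (by
          rw [hb, ← hb']
          rfl)
        have h7 : u D ≠ 0 := by
          obtain ⟨c, hc⟩ := dvd_N0 D
          intro h0
          apply hp
          have h8 := congrArg u hc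
          rw [map_mul, map_mul, h0, mul_zero, mul_zero, map_intCast,
            ZMod.intCast_zmod_eq_zero_iff_dvd] at h8
          exact h8
        rw [h6, map_mul]
        rw [h6, map_mul] at h7
        rw [← sq]
        apply quadraticChar_sq_one'
        intro h0
        rw [h0, mul_zero] at h7
        exact h7 rfl
      rw [h5]
      simp
    rw [Finset.sum_congr rfl fun u _ => h4 u, Finset.sum_const, nsmul_eq_mul, Finset.card_univ,
      card_hom_eq, R_eq_hc, mul_one]
  · rw [if_neg hsq]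
    have h1 := Pool.Agent.H126U.chi_mean hD hsq
    have h2 := PA_low (fun v : HeightOneSpectrum (𝓞 K) => (chi D v : ℝ)) (fun v => chi_abs D v)
    have h3 := h1.sub h2
    rw [sub_zero] at h3
    refine h3.congr fun X => ?_
    unfold pc
    ring

end

section
variable {K F F' : Type} [Field K] [NumberField K] [Field F] [NumberField F] [Algebra K F]
  [Field F'] [NumberField F'] [Algebra K F']

/-- **The Gram matrix, natural averages.** -/
theorem gramN {D : 𝓞 F} {D' : 𝓞 F'} (hD : D ≠ 0) (hD' : D' ≠ 0) :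
    Tendsto (PA fun p => ∑ u : 𝓞 K →+* ZMod (p : ℕ),
      push K (qh D) ⟨p, u⟩ * push K (qh D') ⟨p, u⟩) atTop (𝓝 (inum K F F' D D' : ℝ)) := by
  classical
  obtain ⟨N, hN, hsum⟩ := pairs_sum K F F'
  have h1 : Tendsto (fun X : ℕ => ∑ m : MaximalSpectrum (F ⊗[K] F'),
      PA (low fun v : HeightOneSpectrum (𝓞 (Fac K F F' m)) =>
        (chi (iL K F F' m D * iR K F F' m D') v : ℝ)) X) atTop
      (𝓝 (∑ m : MaximalSpectrum (F ⊗[K] F'),
        if IsSquare ((iL K F F' m D * iR K F F' m D' : 𝓞 (Fac K F F' m)) : Fac K F F' m)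
          then (1 : ℝ) else 0)) :=
    tendsto_finsetSum _ fun m _ => low_mean (fac_ne_zero hD hD' m)
  have hcs : (∑ m : MaximalSpectrum (F ⊗[K] F'),
        if IsSquare ((iL K F F' m D * iR K F F' m D' : 𝓞 (Fac K F F' m)) : Fac K F F' m)
          then (1 : ℝ) else 0) = inum K F F' D D' := by
    rw [Finset.sum_boole]
    unfold inum
    rw [Nat.card_eq_fintype_card, Fintype.card_subtype]
    congr 2
    refine Finset.filter_congr fun m _ => ?_
    rw [iL_iR_coe]
  rw [hcs] at h1
  refine PA_congr (b := fun p => ∑ m : MaximalSpectrum (F ⊗[K] F'),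
      low (fun v : HeightOneSpectrum (𝓞 (Fac K F F' m)) =>
        (chi (iL K F F' m D * iR K F F' m D') v : ℝ)) p) hN (fun p hp => ?_) ?_
  · have : Fact (p : ℕ).Prime := ⟨p.2⟩
    have h2 := hsum p hp (fun ψ ψ' => qh D ⟨p, ψ⟩ * qh D' ⟨p, ψ'⟩)
    have h3 : ∀ u : 𝓞 K →+* ZMod (p : ℕ), push K (qh D) ⟨p, u⟩ * push K (qh D') ⟨p, u⟩ =
        (∑ ψ ∈ Finset.univ.filter
        (fun ψ : 𝓞 F →+* ZMod (p : ℕ) => res K ψ = u), ∑ ψ' ∈ Finset.univ.filter
        (fun ψ' : 𝓞 F' →+* ZMod (p : ℕ) => res K ψ' = u), qh D ⟨p, ψ⟩ * qh D' ⟨p, ψ'⟩) := by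
      intro u
      unfold push
      rw [Finset.sum_mul_sum]
    rw [Finset.sum_congr rfl fun u _ => h3 u, h2]
    refine Finset.sum_congr rfl fun m _ => ?_
    rw [low_kerPrime]
    refine Finset.sum_congr rfl fun Ψ _ => ?_
    rw [chi_kerPrime, qh_eq, qh_eq, map_mul, map_mul]
    push_cast
    rfl
  · refine h1.congr fun X => ?_
    rw [PA_sum]

end

end Pool.Agent.W385.TT
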