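import Pool.Agent.W385.TT.Gram

/-! The Bessel inequality for averages over all finite extensions, natural averages. -/

set_option autoImplicit false

namespace Pool.Agent.W385.TT

open Filter Topology NumberField IsDedekindDomain Pool.Agent.H341R2 Pool.Agent.H341R2.EC
open Pool.Agent.H921R2.TatePole (nm two_le_nm R hc R_eq_hc R_le kerPrime hom_finite)
open Pool.Agent.H126U (PX mem_PX VX mem_VX sum_low sqrt_small pit')
open Pool.Agent.W353.TP
open scoped TensorProduct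

section
variable {K : Type} [Field K] [NumberField K]

/-- the homomorphisms to the prime fields up to `X` -/
noncomputable def HS (K : Type) [Field K] [NumberField K] (X : ℕ) : Finset (HX K) :=
  (PX X).sigma fun p => (Finset.univ : Finset (𝓞 K →+* ZMod (p : ℕ)))

theorem PA_HS (φ : HX K → ℝ) (X : ℕ) :
    PA (fun p => ∑ u : 𝓞 K →+* ZMod (p : ℕ), φ ⟨p, u⟩) X = (∑ x ∈ HS K X, φ x) / pc X := by
  unfold PA HS
  rw [Finset.sum_sigma]

theorem card_HS : Tendsto (fun X : ℕ => ((HS K X).card : ℝ) / pc X) atTop (𝓝 1) := by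
  refine (PA_hc (K := K)).congr fun X => ?_
  have h := PA_HS (K := K) (fun _ => (1 : ℝ)) X
  have h1 : (∑ x ∈ HS K X, (1 : ℝ)) = ((HS K X).card : ℝ) := by
    rw [Finset.sum_const, nsmul_eq_mul, mul_one]
  rw [h1] at h
  rw [← h]
  congr 1
  funext p
  rw [Finset.sum_const, nsmul_eq_mul, mul_one, Finset.card_univ, card_hom_eq, R_eq_hc]

/-- Cauchy's inequality for several correlations over a finite set -/
theorem cs_finite {V J : Type*} (s : Finset V) (P : Finset J) (T W : J → V → ℝ) (b : J → ℝ)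
    (hb : ∀ j ∈ P, 0 ≤ b j) (hT : ∀ j ∈ P, ∀ x, |T j x| ≤ b j) :
    (∑ x ∈ s, ∑ j ∈ P, T j x * W j x) ^ 2 ≤
      (∑ j ∈ P, b j) * ∑ j ∈ P, b j * ((s.card : ℝ) * ∑ x ∈ s, W j x ^ 2) := by
  have h1 : |∑ x ∈ s, ∑ j ∈ P, T j x * W j x| ≤ ∑ j ∈ P, b j * ∑ x ∈ s, |W j x| := by
    rw [Finset.sum_comm]
    refine (Finset.abs_sum_le_sum_abs _ _).trans (Finset.sum_le_sum fun j hj => ?_)
    refine (Finset.abs_sum_le_sum_abs _ _).trans ?_
    rw [Finset.mul_sum]
    refine Finset.sum_le_sum fun x _ => ?_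
    rw [abs_mul]
    exact mul_le_mul_of_nonneg_right (hT j hj x) (abs_nonneg _)
  have h2 : (∑ x ∈ s, ∑ j ∈ P, T j x * W j x) ^ 2 ≤ (∑ j ∈ P, b j * ∑ x ∈ s, |W j x|) ^ 2 := by
    rw [← sq_abs]
    exact pow_le_pow_left₀ (abs_nonneg _) h1 2
  refine h2.trans ?_
  have h3 : (∑ j ∈ P, b j * ∑ x ∈ s, |W j x|) ^ 2 ≤
      (∑ j ∈ P, b j) * ∑ j ∈ P, b j * (∑ x ∈ s, |W j x|) ^ 2 := by
    refine Finset.sum_sq_le_sum_mul_sum_of_sq_le_mul P hb (fun j hj => ?_) fun j hj => ?_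
    · exact mul_nonneg (hb j hj) (sq_nonneg _)
    · exact le_of_eq (by ring)
  refine h3.trans (mul_le_mul_of_nonneg_left (Finset.sum_le_sum fun j hj => ?_)
    (Finset.sum_nonneg hb))
  refine mul_le_mul_of_nonneg_left ?_ (hb j hj)
  have h4 := sq_sum_le_card_mul_sum_sq (s := s) (f := fun x => |W j x|)
  simpa only [sq_abs] using h4

/-- the average attached to a family of twists over an extension -/
noncomputable def YH {J : Type} (P : Finset J) (T : J → HX K → ℝ) (F : Type) [Field F]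
    [NumberField F] [Algebra K F] (D : J → 𝓞 F) (X : ℕ) : ℝ :=
  (∑ x ∈ HS K X, ∑ j ∈ P, T j x * push K (qh (D j)) x) / pc X

/-- the entries of the Gram matrix -/
noncomputable def Gn {J : Type} (K : Type) [Field K] [NumberField K] (P : Finset J) (b : J → ℝ)
    (F F' : Type) [Field F] [NumberField F] [Algebra K F] [Field F'] [NumberField F']
    [Algebra K F'] (D : J → 𝓞 F) (D' : J → 𝓞 F') : ℝ :=
  ∑ j ∈ P, b j * (inum K F F' (D j) (D' j) : ℝ)

/-- **The main inequality, natural averages.** -/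
theorem main_nat {J : Type} (P : Finset J) (T : J → HX K → ℝ) (b : J → ℝ)
    (hb : ∀ j ∈ P, 0 ≤ b j) (hT : ∀ j ∈ P, ∀ x, |T j x| ≤ b j) {κ : Type} (S : Finset κ)
    (F : κ → Type) [∀ k, Field (F k)] [∀ k, NumberField (F k)] [∀ k, Algebra K (F k)]
    (D : ∀ k, J → 𝓞 (F k)) (hD : ∀ k ∈ S, ∀ j ∈ P, D k j ≠ 0) (c : κ → ℝ) {η : ℝ}
    (hη : 0 < η) :
    ∀ᶠ X : ℕ in atTop, (∑ k ∈ S, c k * YH P T (F k) (D k) X) ^ 2 ≤
      (∑ j ∈ P, b j) * (∑ k ∈ S, ∑ l ∈ S, c k * c l * Gn K P b (F k) (F l) (D k) (D l)) + η := by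
  classical
  set W : J → HX K → ℝ := fun j x => ∑ k ∈ S, c k * push K (qh (D k j)) x with hW
  set G : ℝ := ∑ k ∈ S, ∑ l ∈ S, c k * c l * Gn K P b (F k) (F l) (D k) (D l) with hG
  have h1 : ∀ j ∈ P, Tendsto (fun X : ℕ => (∑ x ∈ HS K X, W j x ^ 2) / pc X) atTop
      (𝓝 (∑ k ∈ S, ∑ l ∈ S, c k * c l * (inum K (F k) (F l) (D k j) (D l j) : ℝ))) := by
    intro j hj
    have h2 : Tendsto (fun X : ℕ => ∑ k ∈ S, ∑ l ∈ S, c k * c l *
        PA (fun p => ∑ u : 𝓞 K →+* ZMod (p : ℕ),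
          push K (qh (D k j)) ⟨p, u⟩ * push K (qh (D l j)) ⟨p, u⟩) X) atTop
        (𝓝 (∑ k ∈ S, ∑ l ∈ S, c k * c l * (inum K (F k) (F l) (D k j) (D l j) : ℝ))) :=
      tendsto_finsetSum _ fun k hk => tendsto_finsetSum _ fun l hl =>
        (gramN (hD k hk j hj) (hD l hl j hj)).const_mul _
    refine h2.congr fun X => ?_
    have e1 : ∀ x : HX K, W j x ^ 2 = ∑ k ∈ S, ∑ l ∈ S, c k * c l *
        (push K (qh (D k j)) x * push K (qh (D l j)) x) := by
      intro x
      rw [hW]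
      simp only
      rw [sq, Finset.sum_mul_sum]
      refine Finset.sum_congr rfl fun k _ => Finset.sum_congr rfl fun l _ => ?_
      ring
    have e2 : ∀ k l, PA (fun p => ∑ u : 𝓞 K →+* ZMod (p : ℕ),
          push K (qh (D k j)) ⟨p, u⟩ * push K (qh (D l j)) ⟨p, u⟩) X =
        (∑ x ∈ HS K X, push K (qh (D k j)) x * push K (qh (D l j)) x) / pc X := fun k l =>
      PA_HS (fun x : HX K => push K (qh (D k j)) x * push K (qh (D l j)) x) X
    have e3 : ∑ x ∈ HS K X, W j x ^ 2 = ∑ k ∈ S, ∑ l ∈ S, ∑ x ∈ HS K X, c k * c l *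
        (push K (qh (D k j)) x * push K (qh (D l j)) x) := by
      rw [Finset.sum_congr rfl fun x _ => e1 x, Finset.sum_comm]
      exact Finset.sum_congr rfl fun k _ => Finset.sum_comm
    rw [e3, Finset.sum_div]
    refine Finset.sum_congr rfl fun k _ => ?_
    rw [Finset.sum_div]
    refine Finset.sum_congr rfl fun l _ => ?_
    rw [e2, ← Finset.mul_sum, mul_div_assoc]
  have h2 : Tendsto (fun X : ℕ => (∑ j ∈ P, b j) * ∑ j ∈ P, b j *
      ((((HS K X).card : ℝ) / pc X) * ((∑ x ∈ HS K X, W j x ^ 2) / pc X))) atTop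
      (𝓝 ((∑ j ∈ P, b j) * ∑ j ∈ P, b j * (1 * ∑ k ∈ S, ∑ l ∈ S, c k * c l *
        (inum K (F k) (F l) (D k j) (D l j) : ℝ)))) :=
    (tendsto_finsetSum _ fun j hj => (card_HS.mul (h1 j hj)).const_mul (b j)).const_mul _
  have h3 : (∑ j ∈ P, b j * (1 * ∑ k ∈ S, ∑ l ∈ S, c k * c l *
        (inum K (F k) (F l) (D k j) (D l j) : ℝ))) = G := by
    rw [hG]
    simp only [one_mul, Finset.mul_sum]
    rw [Finset.sum_comm' (s := P) (t := fun _ => S) (t' := S) (s' := fun _ => P) (by tauto)]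
    refine Finset.sum_congr rfl fun k _ => ?_
    rw [Finset.sum_comm' (s := P) (t := fun _ => S) (t' := S) (s' := fun _ => P) (by tauto)]
    refine Finset.sum_congr rfl fun l _ => ?_
    unfold Gn
    rw [Finset.mul_sum]
    refine Finset.sum_congr rfl fun j _ => ?_
    ring
  rw [h3] at h2
  have h4 : (∑ j ∈ P, b j) * G < (∑ j ∈ P, b j) * G + η := by linarith
  filter_upwards [h2.eventually_lt_const h4, pc_tendsto.eventually_gt_atTop 0] with X h5 h6
  refine le_trans ?_ h5.le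
  have e1 : ∑ k ∈ S, c k * YH P T (F k) (D k) X =
      (∑ x ∈ HS K X, ∑ j ∈ P, T j x * W j x) / pc X := by
    have e2 : ∀ k ∈ S, c k * YH P T (F k) (D k) X =
        (∑ x ∈ HS K X, ∑ j ∈ P, T j x * (c k * push K (qh (D k j)) x)) / pc X := by
      intro k _
      unfold YH
      rw [← mul_div_assoc, Finset.mul_sum]
      congr 1
      refine Finset.sum_congr rfl fun x _ => ?_
      rw [Finset.mul_sum]
      refine Finset.sum_congr rfl fun j _ => ?_
      ring
    rw [Finset.sum_congr rfl e2, ← Finset.sum_div, Finset.sum_comm]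
    congr 1
    refine Finset.sum_congr rfl fun x _ => ?_
    rw [Finset.sum_comm]
    refine Finset.sum_congr rfl fun j _ => ?_
    rw [hW, Finset.mul_sum]
  rw [e1, div_pow]
  have h7 := cs_finite (HS K X) P T W b hb hT
  have e3 : (∑ j ∈ P, b j) * ∑ j ∈ P, b j *
      ((((HS K X).card : ℝ) / pc X) * ((∑ x ∈ HS K X, W j x ^ 2) / pc X)) =
      ((∑ j ∈ P, b j) * ∑ j ∈ P, b j * (((HS K X).card : ℝ) * ∑ x ∈ HS K X, W j x ^ 2)) /
        pc X ^ 2 := by
    rw [mul_div_assoc, Finset.sum_div]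
    congr 1
    refine Finset.sum_congr rfl fun j _ => ?_
    field_simp
  rw [e3]
  exact div_le_div_of_nonneg_right h7 (by positivity)

end

end Pool.Agent.W385.TT
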