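import Pool.Agent.W385.TT.Nat
import Pool.Agent.W353.TP.Emb
import Pool.Agent.H126V.FC

/-! Natural averages and residues of the twists over all extensions, and their limits along
subsequences. -/

set_option autoImplicit false

namespace Pool.Agent.W385.TT

open Filter Topology NumberField IsDedekindDomain Pool.Agent.H341R2 Pool.Agent.H341R2.EC
open Pool.Agent.H921R2.TatePole (nm two_le_nm R hc R_eq_hc R_le kerPrime hom_finite)
open Pool.Agent.H126U (PX mem_PX VX mem_VX sum_low sqrt_small pit')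
open Pool.Agent.H126U.ST Pool.Agent.H126U.JT Pool.Agent.H126V.Taub Pool.Agent.H126V.FC
open Pool.Agent.H126V.FB
open Pool.Agent.W353.TP

section
variable {K : Type} [Field K] [NumberField K] {J : Type}

/-- a function on the primes of an extension which is a sum of twists -/
structure Av (K : Type) [Field K] [NumberField K] {J : Type} (P : Finset J) (T : J → HX K → ℝ)
    (b : J → ℝ) (c : ℝ) where
  F : IntermediateField K (Om K)
  nf : NumberField F
  D : J → 𝓞 F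
  hD : ∀ j ∈ P, D j ≠ 0
  S : Finset (HeightOneSpectrum (𝓞 F))
  φ : HeightOneSpectrum (𝓞 F) → ℝ
  t : J → HeightOneSpectrum (𝓞 F) → ℝ
  htb : ∀ j ∈ P, ∀ v, |t j v| ≤ b j
  ht : ∀ j ∈ P, ∀ (p : Nat.Primes) (ψ : 𝓞 F →+* ZMod (p : ℕ)),
    t j (kerPrime p ψ).1.1 = T j ⟨p, res K ψ⟩
  err : HeightOneSpectrum (𝓞 F) → ℝ
  C : ℝ
  hC : ∀ v, |err v| ≤ C
  herr : Tendsto err cofinite (𝓝 0)
  hφ : ∀ v, v ∉ S → φ v = c + ∑ j ∈ P, t j v * (chi (D j) v : ℝ) + err v

variable {P : Finset J} {T : J → HX K → ℝ} {b : J → ℝ} {c : ℝ}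

instance Av.instNF (A : Av K P T b c) : NumberField A.F := A.nf

/-- the deviation of the natural average -/
noncomputable def Av.nat (A : Av K P T b c) (X : ℕ) : ℝ := LA A.S X A.φ - c

/-- the deviation of the analytic average -/
noncomputable def Av.res (A : Av K P T b c) (s : ℝ) : ℝ := (s - 1) * DS A.S A.φ s - c

/-- the entries of the Gram matrix -/
noncomputable def Av.G (A B : Av K P T b c) : ℝ := Gn K P b A.F B.F A.D B.D

theorem Av.nat_ineq (hb : ∀ j ∈ P, 0 ≤ b j) (hT : ∀ j ∈ P, ∀ x, |T j x| ≤ b j) {κ : Type}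
    (S : Finset κ) (g : κ → Av K P T b c) (a : κ → ℝ) {η : ℝ} (hη : 0 < η) :
    ∀ᶠ X : ℕ in atTop, (∑ k ∈ S, a k * (g k).nat X) ^ 2 ≤
      (∑ j ∈ P, b j) * (∑ k ∈ S, ∑ l ∈ S, a k * a l * (g k).G (g l)) + η := by
  classical
  have h1 := fun (η : ℝ) (hη : 0 < η) => main_nat P T b hb hT S (fun k => (g k).F)
    (fun k => (g k).D) (fun k _ => (g k).hD) a hη
  have h2 : Tendsto (fun X : ℕ => ∑ k ∈ S, a k * (g k).nat X -
      ∑ k ∈ S, a k * YH P T (g k).F (g k).D X) atTop (𝓝 0) := by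
    have h3 : Tendsto (fun X : ℕ => ∑ k ∈ S, a k * (LA (g k).S X (g k).φ -
        (c + YH P T (g k).F (g k).D X))) atTop (𝓝 (∑ k ∈ S, a k * 0)) :=
      tendsto_finsetSum _ fun k _ => (LA_YH P T b (g k).D (g k).t (g k).htb (g k).ht c (g k).S
        (g k).φ (g k).err (g k).hC (g k).herr (g k).hφ).const_mul _
    simp only [mul_zero, Finset.sum_const_zero] at h3
    refine h3.congr fun X => ?_
    rw [← Finset.sum_sub_distrib]
    refine Finset.sum_congr rfl fun k _ => ?_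
    unfold Av.nat
    ring
  have h4 := perturb ({()} : Finset Unit) (fun _ X => ∑ k ∈ S, a k * YH P T (g k).F (g k).D X)
    (fun _ X => ∑ k ∈ S, a k * (g k).nat X)
    (c := (∑ j ∈ P, b j) * (∑ k ∈ S, ∑ l ∈ S, a k * a l * (g k).G (g l)))
    (fun η hη => by
      simp only [Finset.sum_singleton]
      exact h1 η hη) (fun _ _ => h2) η hη
  simpa only [Finset.sum_singleton] using h4

theorem Av.res_ineq (hb : ∀ j ∈ P, 0 ≤ b j) (hT : ∀ j ∈ P, ∀ x, |T j x| ≤ b j) {κ : Type}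
    (S : Finset κ) (g : κ → Av K P T b c) (a : κ → ℝ) {η : ℝ} (hη : 0 < η) :
    ∀ᶠ s : ℝ in 𝓝[>] 1, (∑ k ∈ S, a k * (g k).res s) ^ 2 ≤
      (∑ j ∈ P, b j) * (∑ k ∈ S, ∑ l ∈ S, a k * a l * (g k).G (g l)) + η := by
  classical
  set B : ℝ := (∑ j ∈ P, b j) * (∑ k ∈ S, ∑ l ∈ S, a k * a l * (g k).G (g l)) with hB
  have hnat := fun (η : ℝ) (hη : 0 < η) => Av.nat_ineq hb hT S g a hη
  have hB0 : 0 ≤ B := by
    refine le_of_forall_pos_le_add fun ε hε => ?_
    obtain ⟨X, hX⟩ := (hnat ε hε).exists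
    exact (sq_nonneg _).trans hX
  have hφb : ∀ k, ∀ v, v ∉ (g k).S → |(g k).φ v| ≤ |c| + (∑ j ∈ P, b j) + (g k).C := by
    intro k v hv
    rw [(g k).hφ v hv]
    refine (abs_add_le _ _).trans (add_le_add ?_ ((g k).hC v))
    refine (abs_add_le _ _).trans (add_le_add le_rfl ?_)
    refine (Finset.abs_sum_le_sum_abs _ _).trans (Finset.sum_le_sum fun p hp => ?_)
    rw [abs_mul]
    exact (mul_le_of_le_one_right (abs_nonneg _) (chi_abs _ v)).trans ((g k).htb p hp v)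
  have hC0 : ∀ k, 0 ≤ |c| + (∑ j ∈ P, b j) + (g k).C := by
    intro k
    obtain ⟨v⟩ := (sysK (g k).F).nonempty
    have h1 : 0 ≤ (g k).C := (abs_nonneg _).trans ((g k).hC v)
    have h2 : 0 ≤ ∑ j ∈ P, b j := Finset.sum_nonneg hb
    positivity
  have hz : ∀ s : ℝ, 1 < s → Summable fun n : ℕ => (n : ℝ) ^ (-s) := fun s hs =>
    Real.summable_nat_rpow.2 (by linarith)
  have hg : ∀ k (s : ℝ), 1 < s → HasSum (fun n : ℕ => (cf (g k).S (g k).φ n - c) *
      (n : ℝ) ^ (-s)) (DS (g k).S (g k).φ s - c * ∑' n : ℕ, (n : ℝ) ^ (-s)) := by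
    intro k s hs
    have h1 := (hasSum_n (g k).S (hφb k) (hC0 k) hs).sub ((hz s hs).hasSum.mul_left c)
    refine h1.congr_fun ?_ |> fun h => h
    intro n
    ring
  have hgs : ∀ (s : ℝ), 1 < s → HasSum (fun n : ℕ => (∑ k ∈ S, a k * (cf (g k).S (g k).φ n - c)) *
      (n : ℝ) ^ (-s)) (∑ k ∈ S, a k * (DS (g k).S (g k).φ s - c * ∑' n : ℕ, (n : ℝ) ^ (-s))) := by
    intro s hs
    have h1 := hasSum_sum (s := S) fun k _ => (hg k s hs).mul_left (a k)
    refine h1.congr_fun ?_ |> fun h => h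
    intro n
    rw [Finset.sum_mul]
    refine Finset.sum_congr rfl fun k _ => ?_
    ring
  have hA : ∀ η' : ℝ, 0 < η' → ∀ᶠ N : ℕ in atTop,
      ∑ _k ∈ ({()} : Finset Unit), ((∑ n ∈ Finset.Icc 1 N,
        ∑ k ∈ S, a k * (cf (g k).S (g k).φ n - c)) / N) ^ 2 ≤ B + η' := by
    intro η' hη'
    filter_upwards [hnat η' hη', eventually_ge_atTop 1] with N h1 hN
    have hN0 : (N : ℝ) ≠ 0 := by
      have : N ≠ 0 := by omega
      exact_mod_cast this
    rw [Finset.sum_singleton]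
    refine le_trans (le_of_eq ?_) h1
    congr 1
    rw [Finset.sum_comm, Finset.sum_div]
    refine Finset.sum_congr rfl fun k _ => ?_
    rw [← Finset.mul_sum, mul_div_assoc]
    congr 1
    rw [Finset.sum_sub_distrib, sum_cf, Finset.sum_const, Nat.card_Icc, nsmul_eq_mul,
      Nat.add_sub_cancel, sub_div, mul_div_cancel_left₀ _ hN0]
    rfl
  have hE := abel_event ({()} : Finset Unit)
    (fun _ n => ∑ k ∈ S, a k * (cf (g k).S (g k).φ n - c)) hB0 hA
    (fun _ _ s hs => (hgs s hs).summable)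
  have h5 := perturb_s ({()} : Finset Unit) (fun _ s => (s - 1) * ∑' n : ℕ,
      (∑ k ∈ S, a k * (cf (g k).S (g k).φ n - c)) * (n : ℝ) ^ (-s))
    (fun _ s => ∑ k ∈ S, a k * (g k).res s) hB0 hE (fun _ _ => ?_) η hη
  · simpa only [Finset.sum_singleton] using h5
  have h2 : Tendsto (fun s : ℝ => ∑ k ∈ S, a k * (c * ((s - 1) * ∑' n : ℕ, 1 / (n : ℝ) ^ s - 1)))
      (𝓝[>] 1) (𝓝 (∑ k ∈ S, a k * (c * (1 - 1)))) :=
    tendsto_finsetSum _ fun k _ =>
      (((tendsto_sub_mul_tsum_nat_rpow.sub_const 1).const_mul c).const_mul (a k))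
  simp only [sub_self, mul_zero, Finset.sum_const_zero] at h2
  refine h2.congr' ?_
  filter_upwards [self_mem_nhdsWithin] with s hs
  have h3 : ∑' n : ℕ, 1 / (n : ℝ) ^ s = ∑' n : ℕ, (n : ℝ) ^ (-s) :=
    tsum_congr fun n => by rw [Real.rpow_neg (Nat.cast_nonneg _), one_div]
  rw [(hgs s hs).tsum_eq, h3, Finset.mul_sum, ← Finset.sum_sub_distrib]
  refine Finset.sum_congr rfl fun k _ => ?_
  unfold Av.res
  ring

end

/-- **Limits along subsequences.** -/
theorem subseq {ι : Type} [Countable ι] (G : ι → ι → ℝ) (N : ℝ) {Z : Type} {l : Filter Z}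
    (A : ι → Z → ℝ)
    (h : ∀ (κ : Type) (S : Finset κ) (g : κ → ι) (a : κ → ℝ) (η : ℝ), 0 < η →
      ∀ᶠ z in l, (∑ k ∈ S, a k * A (g k) z) ^ 2 ≤
        N * (∑ k ∈ S, ∑ l ∈ S, a k * a l * G (g k) (g l)) + η)
    (z : ℕ → Z) (hz : Tendsto z atTop l) :
    ∃ φ : ℕ → ℕ, StrictMono φ ∧ ∃ ρ : ι → ℝ,
      (∀ i, Tendsto (fun m => A i (z (φ m))) atTop (𝓝 (ρ i))) ∧
      ∀ (κ : Type) (S : Finset κ) (g : κ → ι) (a : κ → ℝ), (∑ k ∈ S, a k * ρ (g k)) ^ 2 ≤
        N * (∑ k ∈ S, ∑ l ∈ S, a k * a l * G (g k) (g l)) := by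
  classical
  have hbd : ∀ i, ∃ C : ℝ, ∀ m, |A i (z m)| ≤ C := by
    intro i
    have h1 := hz.eventually (h Unit {()} (fun _ => i) (fun _ => 1) 1 one_pos)
    simp only [Finset.sum_singleton, one_mul] at h1
    obtain ⟨m0, hm0⟩ := eventually_atTop.1 h1
    refine ⟨(N * G i i + 1) + 1 + ∑ m ∈ Finset.range m0, |A i (z m)|, fun m => ?_⟩
    have hs : 0 ≤ ∑ m ∈ Finset.range m0, |A i (z m)| :=
      Finset.sum_nonneg fun _ _ => abs_nonneg _
    by_cases hm : m0 ≤ m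
    · have h2 := hm0 m hm
      have h3 : |A i (z m)| ≤ A i (z m) ^ 2 + 1 := by
        rw [← sq_abs]
        nlinarith [sq_nonneg (|A i (z m)| - 1), abs_nonneg (A i (z m))]
      linarith
    · push Not at hm
      have h2 := Finset.single_le_sum (f := fun m => |A i (z m)|)
        (fun _ _ => abs_nonneg _) (Finset.mem_range.2 hm)
      have h3 : 0 ≤ N * G i i + 1 := (sq_nonneg _).trans (hm0 m0 le_rfl)
      linarith
  choose C hC using hbd
  have hK : IsCompact (Set.univ.pi fun i : ι => Set.Icc (-(C i)) (C i)) :=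
    isCompact_univ_pi fun i => isCompact_Icc
  obtain ⟨ρ, _, φ, hφ, hlim⟩ := hK.tendsto_subseq (x := fun m i => A i (z m))
    (fun m i _ => abs_le.1 (hC i m))
  refine ⟨φ, hφ, ρ, fun i => (tendsto_pi_nhds.1 hlim) i, fun κ S g a => ?_⟩
  refine le_of_forall_pos_le_add fun η hη => ?_
  have h1 : Tendsto (fun m => (∑ k ∈ S, a k * A (g k) (z (φ m))) ^ 2) atTop
      (𝓝 ((∑ k ∈ S, a k * ρ (g k)) ^ 2)) :=
    (tendsto_finsetSum _ fun k _ => ((tendsto_pi_nhds.1 hlim) (g k)).const_mul _).pow 2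
  exact le_of_tendsto h1 ((hz.comp hφ.tendsto_atTop).eventually (h κ S g a η hη))

end Pool.Agent.W385.TT
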