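import Pool.Agent.W385.TT.Fibres

/-! Averages of the traces on `H¹` of the fibres of twist families, over all extensions. -/

set_option autoImplicit false

namespace Pool.Agent.W385.TT

open Filter Topology NumberField IsDedekindDomain Pool.Agent.H341R2 Pool.Agent.H341R2.EC Polynomial
open Pool.Agent.H921R2.TatePole (nm two_le_nm R hc R_eq_hc R_le kerPrime hom_finite)
open Pool.Agent.H126U.ST Pool.Agent.H126V.Taub Pool.Agent.H126V.FA Pool.Agent.H126V.FD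
open Pool.Agent.H126T (pairs nm_pos' char_v affPts affPts_eq trace_one)
open Pool.Agent.W353.TP (HX push qh res Om mem_ker_iff alg_inj)

section
variable {K : Type} [Field K] [NumberField K] {σ : Type}

/-- the trace of a fibre, the twist in the residue field -/
noncomputable def at2 (v : HeightOneSpectrum (𝓞 K)) (t : σ → 𝓞 K ⧸ v.asIdeal)
    (f : (MvPolynomial σ (𝓞 K))[X]) (e : 𝓞 K ⧸ v.asIdeal) : ℤ :=
  (nm v : ℤ) - Nat.card {P : (𝓞 K ⧸ v.asIdeal) × (𝓞 K ⧸ v.asIdeal) //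
    e * P.2 ^ 2 = (fib v t f).eval P.1}

/-- the character sum of a fibre -/
noncomputable def Sf (v : HeightOneSpectrum (𝓞 K)) (t : σ → 𝓞 K ⧸ v.asIdeal)
    (f : (MvPolynomial σ (𝓞 K))[X]) : ℤ :=
  ∑ x : 𝓞 K ⧸ v.asIdeal, quadraticChar (𝓞 K ⧸ v.asIdeal) ((fib v t f).eval x)

theorem at2_eq {v : HeightOneSpectrum (𝓞 K)} (t : σ → 𝓞 K ⧸ v.asIdeal)
    (f : (MvPolynomial σ (𝓞 K))[X]) {e : 𝓞 K ⧸ v.asIdeal} (h2 : (2 : 𝓞 K) ∉ v.asIdeal)
    (he : e ≠ 0) : at2 v t f e = -(quadraticChar (𝓞 K ⧸ v.asIdeal) e * Sf v t f) := by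
  have h1 := trace_one (char_v h2) (fib v t f) e he
  unfold Sf
  rw [← h1, affPts_eq (fib v t f) e 1 (𝓞 K ⧸ v.asIdeal) (by rw [pow_one])]
  have e1 : {P : (𝓞 K ⧸ v.asIdeal) × (𝓞 K ⧸ v.asIdeal) //
      algebraMap (𝓞 K ⧸ v.asIdeal) (𝓞 K ⧸ v.asIdeal) e * P.2 ^ 2 = aeval P.1 (fib v t f)} =
      {P : (𝓞 K ⧸ v.asIdeal) × (𝓞 K ⧸ v.asIdeal) // e * P.2 ^ 2 = (fib v t f).eval P.1} := rfl
  rw [e1]
  have e2 : (nm v : ℤ) = Nat.card (𝓞 K ⧸ v.asIdeal) := rfl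
  unfold at2
  rw [e2]
  ring

theorem at1_Sf {v : HeightOneSpectrum (𝓞 K)} (t : σ → 𝓞 K ⧸ v.asIdeal)
    (f : (MvPolynomial σ (𝓞 K))[X]) (h2 : (2 : 𝓞 K) ∉ v.asIdeal) : at1 v t f 1 = -Sf v t f := by
  have h1 : at1 v t f 1 = at2 v t f (Ideal.Quotient.mk v.asIdeal 1) := rfl
  rw [h1, at2_eq t f h2 (by rw [map_one]; exact one_ne_zero), map_one, map_one, one_mul]

/-- the pair of a curve and a twisting polynomial -/
def pr2 (f h : (MvPolynomial σ (𝓞 K))[X]) : Fin 2 → (MvPolynomial σ (𝓞 K))[X] := ![f, h]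

open Classical in
/-- the trace on `H¹` of the fibre of a product of twist families -/
noncomputable def fT {r : ℕ} (v : HeightOneSpectrum (𝓞 K)) (t : σ → 𝓞 K ⧸ v.asIdeal)
    (y : 𝓞 K ⧸ v.asIdeal) (f h : Fin r → (MvPolynomial σ (𝓞 K))[X]) (d : Fin r → 𝓞 K) : ℤ :=
  ∑ i, if (fib v t (h i)).eval y = 0 then 0 else
    at2 v t (f i) (Ideal.Quotient.mk v.asIdeal (d i) * (fib v t (h i)).eval y)

open Classical in
/-- the average of the traces on `H¹` over the fibres -/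
noncomputable def NA [Fintype σ] {r : ℕ} (f h : Fin r → (MvPolynomial σ (𝓞 K))[X])
    (d : Fin r → 𝓞 K) (N : MvPolynomial σ (𝓞 K)) (v : HeightOneSpectrum (𝓞 K)) : ℝ :=
  (∑ᶠ t : σ → 𝓞 K ⧸ v.asIdeal, if ev v t N = 0 then (0 : ℝ) else
    ∑ᶠ y : 𝓞 K ⧸ v.asIdeal, (fT v t y f h d : ℝ)) / (nm v : ℝ) ^ (Fintype.card σ + 1)

theorem sum_fT {r : ℕ} {v : HeightOneSpectrum (𝓞 K)} (t : σ → 𝓞 K ⧸ v.asIdeal)
    (f h : Fin r → (MvPolynomial σ (𝓞 K))[X]) (d : Fin r → 𝓞 K)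
    (hg : (2 : 𝓞 K) ∉ v.asIdeal ∧ ∀ i, d i ∉ v.asIdeal) :
    ∑ y : 𝓞 K ⧸ v.asIdeal, (fT v t y f h d : ℝ) =
      -∑ i, (at1 v t (f i) 1 : ℝ) * (at1 v t (h i) 1 : ℝ) * (chi (d i) v : ℝ) := by
  classical
  have h1 : ∀ y : 𝓞 K ⧸ v.asIdeal, fT v t y f h d = -∑ i, chi (d i) v *
      quadraticChar (𝓞 K ⧸ v.asIdeal) ((fib v t (h i)).eval y) * Sf v t (f i) := by
    intro y
    unfold fT
    rw [← Finset.sum_neg_distrib]
    refine Finset.sum_congr rfl fun i _ => ?_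
    by_cases hy : (fib v t (h i)).eval y = 0
    · rw [if_pos hy, hy]
      have : quadraticChar (𝓞 K ⧸ v.asIdeal) 0 = 0 := MulChar.map_zero _
      rw [this, mul_zero, zero_mul, neg_zero]
    · rw [if_neg hy, at2_eq t (f i) hg.1 (mul_ne_zero (mk_ne (hg.2 i)) hy), map_mul]
      unfold chi
      ring
  have h2 : ∑ y : 𝓞 K ⧸ v.asIdeal, fT v t y f h d =
      -∑ i, at1 v t (f i) 1 * at1 v t (h i) 1 * chi (d i) v := by
    rw [Finset.sum_congr rfl fun y _ => h1 y, Finset.sum_neg_distrib, Finset.sum_comm]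
    congr 1
    refine Finset.sum_congr rfl fun i _ => ?_
    rw [at1_Sf t (f i) hg.1, at1_Sf t (h i) hg.1, ← Finset.sum_mul, ← Finset.mul_sum]
    unfold Sf
    ring
  exact_mod_cast h2

theorem NA_eq [Fintype σ] {r : ℕ} (f h : Fin r → (MvPolynomial σ (𝓞 K))[X]) (d : Fin r → 𝓞 K)
    (N : MvPolynomial σ (𝓞 K)) {v : HeightOneSpectrum (𝓞 K)}
    (hg : (2 : 𝓞 K) ∉ v.asIdeal ∧ ∀ i, d i ∉ v.asIdeal) :
    -NA f h d N v = ∑ i, tp (pr2 (f i) (h i)) N (0, 1) v * (chi (d i) v : ℝ) := by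
  classical
  unfold NA
  have h1 : ∀ t : σ → 𝓞 K ⧸ v.asIdeal, (if ev v t N = 0 then (0 : ℝ) else
      ∑ᶠ y : 𝓞 K ⧸ v.asIdeal, (fT v t y f h d : ℝ)) =
      -∑ i, (if ev v t N = 0 then (0 : ℝ) else
        (at1 v t (f i) 1 : ℝ) * (at1 v t (h i) 1 : ℝ)) * (chi (d i) v : ℝ) := by
    intro t
    by_cases ht : ev v t N = 0
    · simp [ht]
    · simp only [if_neg ht]
      rw [finsum_eq_sum_of_fintype, sum_fT t f h d hg]
  rw [finsum_congr h1, finsum_eq_sum_of_fintype, Finset.sum_neg_distrib, Finset.sum_comm, neg_div,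
    neg_neg, Finset.sum_div]
  refine Finset.sum_congr rfl fun i _ => ?_
  unfold tp
  rw [if_pos hg.1, finsum_eq_sum_of_fintype, ← Finset.sum_mul]
  have e1 : pr2 (f i) (h i) ((0 : Fin 2), (1 : Fin 2)).1 = f i := rfl
  have e2 : pr2 (f i) (h i) ((0 : Fin 2), (1 : Fin 2)).2 = h i := rfl
  rw [e1, e2]
  ring

end

section
variable {K : Type} [Field K] [NumberField K] {σ : Type} [Fintype σ] {r : ℕ}

theorem pr2_map {F : Type} [Field F] [NumberField F] [Algebra K F]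
    (f h : (MvPolynomial σ (𝓞 K))[X]) :
    (fun k => (pr2 f h k).map (cF F σ)) = pr2 (f.map (cF F σ)) (h.map (cF F σ)) := by
  funext k
  fin_cases k <;> rfl

/-- the constants of the twist families -/
noncomputable def bN (f h : Fin r → (MvPolynomial σ (𝓞 K))[X]) (i : Fin r) : ℝ :=
  (((f i).natDegree : ℝ) - 1) * (((h i).natDegree : ℝ) - 1)

theorem bN_pos {f h : Fin r → (MvPolynomial σ (𝓞 K))[X]} (hf3 : ∀ i, 3 ≤ (f i).natDegree)
    (hh3 : ∀ i, 3 ≤ (h i).natDegree) (i : Fin r) : 0 < bN f h i := by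
  unfold bN
  have h1 : (3 : ℝ) ≤ (f i).natDegree := by exact_mod_cast hf3 i
  have h2 : (3 : ℝ) ≤ (h i).natDegree := by exact_mod_cast hh3 i
  exact mul_pos (by linarith) (by linarith)

/-- the coefficients over the base -/
noncomputable def tN (f h : Fin r → (MvPolynomial σ (𝓞 K))[X]) (N : MvPolynomial σ (𝓞 K))
    (i : Fin r) (x : HX K) : ℝ := tF (pr2 (f i) (h i)) N (0, 1) x

theorem Loc_pr2 {f h : Fin r → (MvPolynomial σ (𝓞 K))[X]} {N : MvPolynomial σ (𝓞 K)}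
    (hf : Loc f N) (hh : Loc h N) (i : Fin r) : Loc (pr2 (f i) (h i)) N := by
  intro k _ φ t h2 hN j
  fin_cases j
  · exact hf k φ t h2 hN i
  · exact hh k φ t h2 hN i

theorem odd_pr2 {f h : Fin r → (MvPolynomial σ (𝓞 K))[X]} (hf : ∀ i, Odd (f i).natDegree)
    (hh : ∀ i, Odd (h i).natDegree) (i : Fin r) (j : Fin 2) :
    Odd (pr2 (f i) (h i) j).natDegree := by
  fin_cases j
  · exact hf i
  · exact hh i

theorem three_pr2 {f h : Fin r → (MvPolynomial σ (𝓞 K))[X]} (hf : ∀ i, 3 ≤ (f i).natDegree)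
    (hh : ∀ i, 3 ≤ (h i).natDegree) (i : Fin r) (j : Fin 2) :
    3 ≤ (pr2 (f i) (h i) j).natDegree := by
  fin_cases j
  · exact hf i
  · exact hh i

theorem abs_tN {f h : Fin r → (MvPolynomial σ (𝓞 K))[X]}
    (hf : ∀ i, Odd (f i).natDegree) (hf3 : ∀ i, 3 ≤ (f i).natDegree)
    (hh : ∀ i, Odd (h i).natDegree) (hh3 : ∀ i, 3 ≤ (h i).natDegree)
    {N : MvPolynomial σ (𝓞 K)} (hfN : Loc f N) (hhN : Loc h N) (i : Fin r) (x : HX K) :
    |tN f h N i x| ≤ bN f h i :=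
  abs_tF (odd_pr2 hf hh i) (three_pr2 hf3 hh3 i) (Loc_pr2 hfN hhN i) (0, 1) x

/-- one twist -/
def A1 (i : Fin r) : Finset (Fin r) := {i}

theorem D_A1 (x : Dat K (Fin r)) (i : Fin r) : x.D A1 i = x.d i := by
  unfold Dat.D A1
  exact Finset.prod_singleton _ _

/-- the average over the fibres of a product of twist families -/
noncomputable def avN {f h : Fin r → (MvPolynomial σ (𝓞 K))[X]} {N : MvPolynomial σ (𝓞 K)}
    (hf : ∀ i, Odd (f i).natDegree) (hf3 : ∀ i, 3 ≤ (f i).natDegree)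
    (hh : ∀ i, Odd (h i).natDegree) (hh3 : ∀ i, 3 ≤ (h i).natDegree)
    (hfN : Loc f N) (hhN : Loc h N)
    (x : Dat K (Fin r)) (S : Finset (HeightOneSpectrum (𝓞 x.F)))
    (hS : ∀ v, v ∉ S → (2 : 𝓞 x.F) ∉ v.asIdeal ∧ ∀ i, x.d i ∉ v.asIdeal) :
    Av K (Finset.univ : Finset (Fin r)) (tN f h N) (bN f h) 0 where
  F := x.F
  nf := x.nf
  D := x.D A1
  hD := fun j _ => x.D_ne A1 j
  S := S
  φ := fun v => -NA (fun i => (f i).map (cF x.F σ)) (fun i => (h i).map (cF x.F σ)) x.d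
    (cF x.F σ N) v
  t := fun i => tp (pr2 ((f i).map (cF x.F σ)) ((h i).map (cF x.F σ))) (cF x.F σ N) (0, 1)
  htb := fun i _ v => by
    have h1 := abs_tp' (F := x.F) (odd_pr2 hf hh i) (three_pr2 hf3 hh3 i)
      (Loc_pr2 hfN hhN i) (0, 1) v
    rw [pr2_map] at h1
    exact h1
  ht := fun i _ p ψ => by
    have h1 := tp_bc (F := x.F) (pr2 (f i) (h i)) N (0, 1) p ψ
    rw [pr2_map] at h1
    exact h1
  err := fun _ => 0
  C := 0
  hC := fun _ => by simp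
  herr := tendsto_const_nhds
  hφ := fun v hv => by
    rw [NA_eq _ _ _ _ (hS v hv), add_zero, zero_add]
    refine Finset.sum_congr rfl fun j _ => ?_
    rw [D_A1]

end

section
variable {K : Type} [Field K] [NumberField K] {r : ℕ}

/-- the relation for single twists -/
def Rl1 (M : IntermediateField K (Om K)) {F F₀ : IntermediateField K (Om K)} (d : Fin r → 𝓞 F)
    (e : Fin r → 𝓞 F₀) : Prop :=
  ∀ i, ((∃ u ∈ F, u ^ 2 = ((d i : F) : Om K) * ((e i : F₀) : Om K)) ∧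
      ∃ t ∈ M, t ^ 2 = ((e i : F₀) : Om K)) ∨
    ((∀ z ∈ F ⊔ M, z ^ 2 ≠ ((d i : F) : Om K)) ∧ ∀ z ∈ M, z ^ 2 ≠ ((e i : F₀) : Om K))

open Pool.Agent.W353.TP in
/-- only finitely many twists over subfields of `M` matter -/
theorem finite_types1 (M : IntermediateField K (Om K)) [FiniteDimensional K M] [Normal K M] :
    ∃ (l : ℕ) (s : Fin l → Sub M r), l ≤ 2 ^ (((r + 1) ^ 2 + 1) * (Module.finrank K M + 1)) ∧
      ∀ (F : IntermediateField K (Om K)) [NumberField F] (d : Fin r → 𝓞 F), (∀ i, d i ≠ 0) →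
        ∃ a, (s a).G = F ⊓ M ∧ Rl1 M d (s a).e := by
  classical
  obtain ⟨l, s, hl, hs⟩ := finite_types (r := r + 1) M
  refine ⟨l, fun a => ⟨(s a).G, (s a).le, (s a).nf, fun i => (s a).e 0 * (s a).e i.succ,
    fun i => mul_ne_zero ((s a).he 0) ((s a).he i.succ)⟩, hl, fun F _ d hd => ?_⟩
  obtain ⟨a, ha, hR⟩ := hs F (Fin.cons 1 d : Fin (r + 1) → 𝓞 F) (fun i => by
    refine Fin.cases ?_ (fun j => ?_) i
    · rw [Fin.cons_zero]
      exact one_ne_zero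
    · rw [Fin.cons_succ]
      exact hd j)
  refine ⟨a, ha, fun i => ?_⟩
  have h1 := hR (0, i.succ) (Finset.mem_filter.2 ⟨Finset.mem_univ _, Fin.succ_pos i⟩)
  have e1 : pr (Fin.cons 1 d : Fin (r + 1) → 𝓞 F) (0, i.succ) = ((d i : F) : Om K) := by
    unfold pr
    rw [Fin.cons_zero, Fin.cons_succ, one_mul]
  have e2 : pr (s a).e (0, i.succ) = ((((s a).e 0 * (s a).e i.succ : 𝓞 (s a).G) : (s a).G) :
    Om K) := rfl
  rw [e1, e2] at h1
  exact h1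

end

end Pool.Agent.W385.TT
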